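import Pool.Agent.MP_122bd4_an.Unc.Komlos

/-! Balancing Euclidean vectors into a seminorm that is small on average over sign changes. -/

open MeasureTheory Finset

namespace Pool.Agent.MP_122bd4_an.Zon

open Unc

theorem flip_int {J : ℕ} (σ : Fin J → ℝ) (hσ : ∀ j, σ j = 1 ∨ σ j = -1) (f : (Fin J → ℝ) → ℝ) :
    ∫ x : Fin J → ℝ, f (fun j => σ j * x j) = ∫ x, f x := by
  have h1 : MeasurePreserving (fun (x : Fin J → ℝ) j => σ j * x j) volume volume :=
    measurePreserving_pi (fun _ => volume) (fun _ => volume) (f := fun j s => σ j * s) fun j => by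
      rcases hσ j with k | k
      · simp only [k, one_mul]; exact MeasurePreserving.id (volume : Measure ℝ)
      · simpa [k] using Measure.measurePreserving_neg (volume : Measure ℝ)
  have h2 : Function.Involutive (fun (x : Fin J → ℝ) j => σ j * x j) := fun x => by
    funext j
    rcases hσ j with k | k <;> simp [k]
  exact h1.integral_comp (MeasurableEquiv.ofInvolutive _ h2 h1.measurable).measurableEmbedding f

theorem ban {J n : ℕ} (G : Seminorm ℝ (Fin J → ℝ)) {ρ : ℝ} (ρ0 : 0 < ρ)
    (hG : ∀ x : Fin J → ℝ, ‖x‖ ≤ 60 → ∑ σ : Fin J → Bool,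
      G (fun j => (if σ j then 1 else -1) * x j) ^ 2 ≤ 2 ^ J * ρ ^ 2)
    (v : Fin n → Fin J → ℝ) (hv : ∀ l, ∑ j, v l j ^ 2 ≤ 1) :
    ∃ ε : Fin n → ℝ, (∀ l, ε l = 1 ∨ ε l = -1) ∧ G (∑ l, ε l • v l) ≤ 14 * ρ := by
  have cG : Continuous G := continuousOn_univ.1 (G.convexOn.continuousOn isOpen_univ)
  set N := ∫ s, tent s * tent s with hN
  have N0 : 0 < N := by linarith [tent_mass]
  set Φ : (Fin J → ℝ) → ℝ := fun x => ∏ j, tent (x j) with hΦ
  have p1 : Continuous Φ := continuous_finsetProd _ fun j _ => tent_cont.comp (continuous_apply j)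
  have p0 : ∀ x, Φ x ≠ 0 → x ∈ Metric.closedBall (0 : Fin J → ℝ) 60 := fun x hx =>
    mem_closedBall_zero_iff.2 ((pi_norm_le_iff_of_nonneg (by norm_num)).2 fun j => by
      by_contra h
      exact hx (prod_eq_zero (mem_univ j) (tent_zero (not_le.1 h).le)))
  have p2 : HasCompactSupport Φ :=
    HasCompactSupport.intro (isCompact_closedBall 0 60) fun x h => not_not.1 (mt (p0 x) h)
  have p3 : ∀ u, Integrable fun x => Φ (x + u) * Φ x := fun u =>
    ((p1.comp (by fun_prop)).mul p1).integrable_of_hasCompactSupport p2.mul_left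
  have p4 : ∀ u, ∫ x, Φ (x + u) * Φ x = ∏ j, ∫ s, tent (s + u j) * tent s := fun u => by
    simp only [hΦ, ← prod_mul_distrib, Pi.add_apply]
    exact integral_fintype_prod_volume_eq_prod fun j s => tent (s + u j) * tent s
  have p5 : ∫ x, Φ x * Φ x = N ^ J := by simpa using p4 0
  have p6 : Integrable fun x => Φ x * Φ x := by simpa using p3 0
  have p7 : ∀ f : (Fin J → ℝ) → ℝ, Continuous f → Integrable fun x => Φ x * Φ x * f x :=
    fun f hf => ((p1.mul p1).mul hf).integrable_of_hasCompactSupport p2.mul_left.mul_right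
  have M0 : 0 < N ^ J := pow_pos N0 J
  have m2 : ∫ x, Φ x * Φ x * G x ^ 2 ≤ ρ ^ 2 * N ^ J := by
    have e : ∀ σ : Fin J → Bool, ∫ x, Φ x * Φ x * G x ^ 2 =
        ∫ x, Φ x * Φ x * G (fun j => (if σ j then 1 else -1) * x j) ^ 2 := fun σ => by
      rw [← flip_int (fun j => if σ j then 1 else -1) (fun j => by split_ifs <;> simp)]
      refine integral_congr_ae (Filter.Eventually.of_forall fun x => ?_)
      have : Φ (fun j => (if σ j then 1 else -1) * x j) = Φ x :=
        prod_congr rfl fun j _ => by cases h : σ j <;> simp [tent, h]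
      simp only [this]
    have e2 : (2 : ℝ) ^ J * ∫ x, Φ x * Φ x * G x ^ 2 = ∫ x, ∑ σ : Fin J → Bool,
        Φ x * Φ x * G (fun j => (if σ j then 1 else -1) * x j) ^ 2 := by
      rw [integral_finsetSum _ fun σ _ => p7 _ (by fun_prop), ← sum_congr rfl fun σ _ => e σ]
      simp
    have e3 : ∫ x, ∑ σ : Fin J → Bool,
        Φ x * Φ x * G (fun j => (if σ j then 1 else -1) * x j) ^ 2 ≤
        ∫ x, Φ x * Φ x * (2 ^ J * ρ ^ 2) :=
      integral_mono (integrable_finsetSum _ fun σ _ => p7 _ (by fun_prop)) (p6.mul_const _)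
        fun x => by
          simp only [← mul_sum]
          by_cases k : Φ x = 0
          · simp [k]
          · exact mul_le_mul_of_nonneg_left (hG x (mem_closedBall_zero_iff.1 (p0 x k)))
              (mul_self_nonneg _)
    rw [← e2, integral_mul_const, p5] at e3
    exact le_of_mul_le_mul_left (e3.trans_eq (by ring)) (by positivity : (0 : ℝ) < 2 ^ J)
  set χ : (Fin J → ℝ) → ℝ := fun x => max 0 (min 1 (2 - G x / (7 * ρ))) with hχ
  have c0 : ∀ x, 0 ≤ χ x := fun x => le_max_left _ _
  have c1 : ∀ x, χ x ≤ 1 := fun x => max_le zero_le_one (min_le_left _ _)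
  have c2 : ∀ x, 1 - χ x ≤ G x ^ 2 / (49 * ρ ^ 2) := fun x => by
    rw [show G x ^ 2 / (49 * ρ ^ 2) = (G x / (7 * ρ)) ^ 2 by field_simp; ring]
    rcases le_total (G x / (7 * ρ)) 1 with k | k
    · have : χ x = 1 := by
        simp only [hχ]; rw [min_eq_left (by linarith), max_eq_right zero_le_one]
      rw [this, sub_self]; positivity
    · nlinarith [c0 x]
  have c3 : ∀ x, χ x ≠ 0 → G x ≤ 14 * ρ := fun x hx => by
    by_contra k
    refine hx (max_eq_left ((min_le_right _ _).trans ?_))
    rw [sub_nonpos, le_div_iff₀ (by positivity)]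
    linarith
  have cχ : Continuous χ := by fun_prop
  have ib : Integrable fun x => Φ x * Φ x * (1 - χ x) := p7 _ (by fun_prop)
  have bad : ∫ x, Φ x * Φ x * (1 - χ x) ≤ N ^ J / 49 := by
    refine (integral_mono ib ((p7 _ (cG.pow 2)).div_const (49 * ρ ^ 2)) fun x => ?_).trans ?_
    · simp only [mul_div_assoc]
      exact mul_le_mul_of_nonneg_left (c2 x) (mul_self_nonneg _)
    · rw [integral_div, div_le_iff₀ (by positivity)]
      exact m2.trans_eq (by ring)
  set Z := ∫ x, Φ x * Φ x * χ x with hZ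
  have Z1 : 48 / 49 * N ^ J ≤ Z := by
    simp only [mul_sub, mul_one] at bad
    rw [integral_sub p6 (p7 _ cχ), p5] at bad
    linarith
  have Z0 : 0 < Z := lt_of_lt_of_le (by positivity) Z1
  obtain ⟨ε, e1, e2, -⟩ := split n Unit (fun _ x => Φ x * Φ x * χ x / Z) 0 v
    ({x | G x ≤ 14 * ρ} ×ˢ Set.univ) (fun _ => ((p1.mul p1).mul cχ).div_const _)
    (fun _ => p2.mono fun x hx h => hx (by simp [h]))
    (fun _ x => div_nonneg (mul_nonneg (mul_self_nonneg _) (c0 x)) Z0.le)
    (by simp [integral_div, ← hZ, Z0.ne'])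
    (fun f => by
      have := integral_neg_eq_self (fun x => Φ x * Φ x * χ x / Z * f x) volume
      simp only [hΦ, hχ, tent, Pi.neg_apply, abs_neg, map_neg, map_neg_eq_map, mul_neg,
        integral_neg] at this
      simp only [hΦ, hχ, tent, map_zero, Fintype.sum_unique]
      linarith)
    (fun i => by
      set u : Fin J → ℝ := (6 : ℝ) • v i with hu
      have hs : ∑ j, u j ^ 2 / 800 ≤ 36 / 800 := by
        simp only [hu, Pi.smul_apply, smul_eq_mul, mul_pow, ← sum_div, ← mul_sum]
        linarith [hv i]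
      have h1 : ∀ j, u j ^ 2 / 800 ≤ 36 / 800 := fun j =>
        (single_le_sum (f := fun j => u j ^ 2 / 800) (fun j _ => by positivity)
          (mem_univ j)).trans hs
      have h2 : (1 - 36 / 800) * N ^ J ≤ ∫ x, Φ (x + u) * Φ x := by
        rw [p4]
        refine le_trans ?_ (prod_le_prod (f := fun j => (1 - u j ^ 2 / 800) * N)
          (fun j _ => mul_nonneg (by linarith [h1 j]) N0.le)
          fun j _ => tent_shift (abs_le_of_sq_le_sq' (by linarith [h1 j]) (by norm_num) |> abs_le.2))
        rw [prod_mul_distrib, prod_const, card_univ, Fintype.card_fin]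
        exact mul_le_mul_of_nonneg_right (le_trans (by linarith) (weier _ _ (fun j => by positivity)
          fun j => by linarith [h1 j])) (by positivity)
      have i1 : Integrable fun x => Φ (x + u) * Φ (x + u) := p6.comp_add_right u
      have i2 : Integrable fun x => Φ (x + u) * Φ (x + u) + Φ x * Φ x := i1.add p6
      have i3 : Integrable fun x => |Φ (x + u) * Φ (x + u) * χ (x + u) - Φ x * Φ x * χ x| :=
        (((p7 _ cχ).comp_add_right u).sub (p7 _ cχ)).abs
      have i4 : Integrable fun x => Φ (x + u) * Φ (x + u) * (1 - χ (x + u)) := ib.comp_add_right u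
      have i5 : Integrable fun x => 19 / 6 * (Φ (x + u) * Φ (x + u) + Φ x * Φ x) -
          6 * (Φ (x + u) * Φ x) := (i2.const_mul (19 / 6)).sub ((p3 u).const_mul 6)
      have i6 : Integrable fun x => Φ (x + u) * Φ (x + u) * (1 - χ (x + u)) +
          Φ x * Φ x * (1 - χ x) := i4.add ib
      have h3 := integral_mono i3 (i5.add i6) fun x => by
        simp only [Pi.add_apply]
        have a1 := mul_nonneg (mul_self_nonneg (Φ (x + u))) (sub_nonneg.2 (c1 (x + u)))
        have a2 := mul_nonneg (mul_self_nonneg (Φ x)) (sub_nonneg.2 (c1 x))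
        rw [abs_le]
        constructor <;> nlinarith [sq_nonneg (6 * (Φ (x + u) - Φ x) - (Φ (x + u) + Φ x)),
          sq_nonneg (6 * (Φ (x + u) - Φ x) + (Φ (x + u) + Φ x)), sq_nonneg (Φ (x + u) - Φ x)]
      simp only [Pi.add_apply] at h3
      rw [integral_add i5 i6, integral_add i4 ib,
        integral_add_right_eq_self (fun x => Φ x * Φ x * (1 - χ x)) u,
        integral_sub (i2.const_mul _) ((p3 u).const_mul 6), integral_const_mul,
        integral_const_mul, integral_add i1 p6,
        integral_add_right_eq_self (fun x => Φ x * Φ x) u, p5] at h3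
      simp only [Fintype.sum_unique, ← sub_div, abs_div, abs_of_pos Z0]
      rw [integral_div, div_le_iff₀ Z0]
      linarith)
    (Convex.prod (by simpa using G.convexOn.convex_le (14 * ρ)) convex_univ) ((isClosed_le cG continuous_const).prod isClosed_univ)
    fun _ x hx => ⟨c3 x fun h => hx (by simp [h]), trivial⟩
  exact ⟨ε, e1, by simpa using e2⟩

end Pool.Agent.MP_122bd4_an.Zon
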