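import Pool.Agent.MP_122bd4_an.Zon.Defs
import Pool.Agent.MP_122bd4_an.Unc.Opt

/-! The optimal box inside the unit ball of a 2-convex unconditional norm. -/

open Finset

namespace Pool.Agent.MP_122bd4_an.Zon

variable {N : ℕ} {W : Seminorm ℝ (Fin N → ℝ)}

theorem cont (W : Seminorm ℝ (Fin N → ℝ)) : Continuous W :=
  continuousOn_univ.1 (W.convexOn.continuousOn isOpen_univ)

theorem box (hW : UncNorm W) (h2 : TwoConvex W) (β : Fin N → ℝ) (β0 : ∀ i, 0 ≤ β i) :
    ∃ t : Fin N → ℝ, (∀ i, 0 ≤ t i) ∧ W t ≤ 1 ∧ (∀ i, 0 < β i → 0 < t i) ∧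
      ∀ x, W x ≤ 1 → ∑ i, β i * x i ^ 2 / t i ≤ ∑ i, β i * t i := by
  let K : Set (Fin N → ℝ) := Set.Icc 0 (fun j => 1 / W (Pi.single j 1)) ∩ {t | W t ≤ 1}
  have mK : ∀ t, t ∈ K ↔ (∀ i, 0 ≤ t i) ∧ W t ≤ 1 := fun t =>
    ⟨fun k => ⟨k.1.1, k.2⟩, fun k => ⟨⟨k.1, fun j => by
      rw [le_div_iff₀ (Unc.pos hW j)]
      have := Unc.coord hW t j
      rw [abs_of_nonneg (k.1 j)] at this
      exact this.trans k.2⟩, k.2⟩⟩
  have cK : IsCompact K := isCompact_Icc.inter_right (isClosed_le (cont W) continuous_const)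
  obtain ⟨t, ht, mt⟩ := cK.exists_isMaxOn ⟨0, (mK 0).2 ⟨fun _ => le_rfl, by simp⟩⟩
    (f := fun t => ∑ i, β i * t i) (by fun_prop)
  obtain ⟨t0, t1⟩ := (mK t).1 ht
  have path : ∀ x, W x ≤ 1 → ∀ θ : ℝ, 0 < θ → θ < 1 →
      ∑ i, β i * √(t i ^ 2 + θ * (x i ^ 2 - t i ^ 2)) ≤ ∑ i, β i * t i := fun x hx θ θ0 θ1 => by
    refine mt ((mK _).2 ⟨fun i => Real.sqrt_nonneg _, ?_⟩)
    have k := h2 (√(1 - θ) • t) (√θ • x)
    rw [map_smul_eq_mul, map_smul_eq_mul, mul_pow, mul_pow, Real.norm_eq_abs, Real.norm_eq_abs,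
      sq_abs, sq_abs, Real.sq_sqrt (by linarith), Real.sq_sqrt θ0.le] at k
    have e : (fun i => √((√(1 - θ) • t) i ^ 2 + (√θ • x) i ^ 2)) =
        fun i => √(t i ^ 2 + θ * (x i ^ 2 - t i ^ 2)) := funext fun i => by
      rw [Pi.smul_apply, Pi.smul_apply, smul_eq_mul, smul_eq_mul, mul_pow, mul_pow,
        Real.sq_sqrt (by linarith), Real.sq_sqrt θ0.le]
      ring_nf
    rw [e] at k
    have a1 : W t ^ 2 ≤ 1 := pow_le_one₀ (apply_nonneg W _) t1
    have a2 : W x ^ 2 ≤ 1 := pow_le_one₀ (apply_nonneg W _) hx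
    exact (sq_le_one_iff₀ (apply_nonneg W _)).1 (by nlinarith)
  have F0 : 0 ≤ ∑ i, β i * t i := sum_nonneg fun i _ => mul_nonneg (β0 i) (t0 i)
  have tp : ∀ i, 0 < β i → 0 < t i := fun i0 b0 => by
    refine (t0 i0).lt_of_ne' fun z => ?_
    set F := ∑ i, β i * t i with hF
    set c := 1 / W (Pi.single i0 1) with hc
    have c0 : 0 < c := one_div_pos.2 (Unc.pos hW i0)
    have hx : W (c • (Pi.single i0 1 : Fin N → ℝ)) ≤ 1 := by
      rw [map_smul_eq_mul, Real.norm_of_nonneg c0.le, hc, one_div_mul_cancel (Unc.pos hW i0).ne']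
    have bc : 0 < β i0 * c := mul_pos b0 c0
    set η := β i0 * c / (β i0 * c + F + 1) with hη
    have η0 : 0 < η := by positivity
    have η1 : η < 1 := by rw [hη, div_lt_one (by positivity)]; linarith
    have η2 : η * F < β i0 * c := by
      rw [hη, div_mul_eq_mul_div, div_lt_iff₀ (by positivity)]; nlinarith
    have k := path _ hx (η ^ 2) (by positivity) (pow_lt_one₀ η0.le η1 two_ne_zero)
    have l : ∑ i, ((1 - η ^ 2) * (β i * t i) + if i = i0 then β i0 * c * η else 0) ≤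
        ∑ i, β i * √(t i ^ 2 + η ^ 2 * ((c • (Pi.single i0 1 : Fin N → ℝ)) i ^ 2 - t i ^ 2)) :=
      sum_le_sum fun i _ => by
        by_cases e : i = i0
        · subst e
          simp only [z, mul_zero, if_true, zero_add, Pi.smul_apply, Pi.single_eq_same, smul_eq_mul,
            mul_one]
          rw [mul_assoc]
          refine mul_le_mul_of_nonneg_left (Real.le_sqrt_of_sq_le (le_of_eq (by ring))) (β0 _)
        · simp only [if_neg e, add_zero, Pi.smul_apply, Pi.single_eq_of_ne e, smul_eq_mul, mul_zero]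
          rw [mul_left_comm]
          refine mul_le_mul_of_nonneg_left (Real.le_sqrt_of_sq_le ?_) (β0 _)
          have : 0 ≤ η ^ 2 * (1 - η ^ 2) * t i ^ 2 := by
            have := pow_lt_one₀ η0.le η1 two_ne_zero
            have : 0 ≤ 1 - η ^ 2 := by linarith
            positivity
          nlinarith
    rw [sum_add_distrib, ← mul_sum, sum_ite_eq'] at l
    simp only [mem_univ, if_true] at l
    nlinarith
  refine ⟨t, t0, t1, tp, fun x hx => ?_⟩
  have d : HasDerivAt (fun θ : ℝ => ∑ i, β i * √(t i ^ 2 + θ * (x i ^ 2 - t i ^ 2)))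
      (∑ i, (β i * x i ^ 2 / t i - β i * t i) / 2) 0 := by
    refine HasDerivAt.fun_sum fun i _ => ?_
    rcases (β0 i).lt_or_eq with k | k
    · have p := tp i k
      have d1 : HasDerivAt (fun θ : ℝ => t i ^ 2 + θ * (x i ^ 2 - t i ^ 2))
          (x i ^ 2 - t i ^ 2) 0 := by
        simpa using ((hasDerivAt_id (0 : ℝ)).mul_const (x i ^ 2 - t i ^ 2)).const_add (t i ^ 2)
      refine ((d1.sqrt (by simpa using p.ne')).const_mul (β i)).congr_deriv ?_
      rw [zero_mul, add_zero, Real.sqrt_sq p.le]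
      field_simp
    · simpa [← k] using hasDerivAt_const (0 : ℝ) (0 : ℝ)
  have := Unc.foc d fun θ θ0 θ1 => (path x hx θ θ0 θ1).trans (le_of_eq (sum_congr rfl
    fun i _ => by rw [zero_mul, add_zero, Real.sqrt_sq (t0 i)]))
  rw [← sum_div, sum_sub_distrib] at this
  linarith

end Pool.Agent.MP_122bd4_an.Zon
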