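import Mathlib

/-! Dyadic blocks of a decreasing sequence. -/

open Finset

namespace Pool.Agent.MP_122bd4_an.Zon

variable {m : ℕ}

/-- Extension by zero. -/
def ext (s : Fin m → ℝ) (k : ℕ) : ℝ := if h : k < m then s ⟨k, h⟩ else 0

theorem ext_nonneg {s : Fin m → ℝ} (s0 : ∀ a, 0 ≤ s a) (k : ℕ) : 0 ≤ ext s k := by
  unfold ext; split_ifs; exacts [s0 _, le_rfl]

theorem ext_anti {s : Fin m → ℝ} (s0 : ∀ a, 0 ≤ s a) (sa : Antitone s) : Antitone (ext s) :=
  fun j k h => by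
    by_cases e : k < m
    · simp only [ext, dif_pos e, dif_pos (h.trans_lt e)]; exact sa h
    · rw [ext, dif_neg e]; exact ext_nonneg s0 j

theorem ext_val (s : Fin m → ℝ) (a : Fin m) : ext s a = s a := by simp [ext]

theorem ext_sum (s : Fin m → ℝ) : ∑ k ∈ range m, ext s k = ∑ a, s a := by
  rw [← Fin.sum_univ_eq_sum_range]
  exact sum_congr rfl fun a _ => ext_val s a

theorem eights (b : ℕ → ℝ) (ba : Antitone b) (n : ℕ) :
    ∑ k ∈ range (8 * n), b k ≤ 8 * ∑ l ∈ range n, b (8 * l) := by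
  induction n with
  | zero => simp
  | succ n ih =>
    rw [mul_add, mul_one, sum_range_add, sum_range_succ (fun l => b (8 * l))]
    have := sum_le_card_nsmul (range 8) (fun x => b (8 * n + x)) (b (8 * n))
      fun x _ => ba (Nat.le_add_right _ _)
    rw [card_range, nsmul_eq_mul] at this
    push_cast at this
    linarith

/-- The block used for the vector number `l`. -/
def kk (l : ℕ) : ℕ := if l = 0 then 0 else Nat.log 2 l + 2

theorem kk_lt (l : ℕ) : l < 2 ^ (kk l - 1) := by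
  unfold kk; split_ifs with h
  · simp [h]
  · exact Nat.lt_pow_succ_log_self one_lt_two l

theorem kk_room (l : ℕ) : 2 ^ (kk l - 1) + l ≤ 2 ^ kk l := by
  have := kk_lt l
  unfold kk at this ⊢; split_ifs at this ⊢ with h
  · simp [h]
  · rw [show Nat.log 2 l + 2 - 1 = Nat.log 2 l + 1 from rfl] at this ⊢
    rw [pow_succ 2 (Nat.log 2 l + 1)]; omega

theorem kk_end (l : ℕ) : 2 ^ (kk l + 1) - 2 ≤ 8 * l := by
  unfold kk; split_ifs with h
  · simp
  · have := Nat.pow_log_le_self 2 h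
    rw [pow_succ, pow_succ, pow_succ]; omega

theorem kk_le {l : ℕ} (h : l < m) : kk l < Nat.log 2 m + 3 := by
  unfold kk; split_ifs
  · omega
  · have := Nat.log_mono_right (b := 2) h.le; omega

/-- The dyadic block number `k`. -/
def blk (m k : ℕ) : Finset (Fin m) := {a | Nat.log 2 (a.1 + 1) = k}

theorem blk_card {k : ℕ} (h : 2 ^ (k + 1) - 2 < m) : 2 ^ k ≤ #(blk m k) := by
  have h2 := Nat.two_pow_pos k
  rw [pow_succ] at h
  simpa using card_le_card_of_injOn (s := (univ : Finset (Fin (2 ^ k)))) (t := blk m k)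
    (fun t => ⟨2 ^ k - 1 + t, by have := t.2; omega⟩)
    (fun t _ => by
      have := t.2
      simp only [blk, coe_filter, mem_univ, true_and, Set.mem_ofPred_eq]
      exact Nat.log_eq_of_pow_le_of_lt_pow (by omega) (by rw [pow_succ]; omega))
    fun t _ t' _ e => by simpa [Fin.ext_iff] using e

theorem blk_le {k : ℕ} {a : Fin m} (h : a ∈ blk m k) : a.1 ≤ 2 ^ (k + 1) - 2 := by
  have := Nat.lt_pow_succ_log_self one_lt_two (a.1 + 1)
  rw [(mem_filter.1 h).2, Nat.succ_eq_add_one] at this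
  omega

theorem blk_sum (f : Fin m → ℝ) :
    ∑ k ∈ range (Nat.log 2 m + 3), ∑ a ∈ blk m k, f a = ∑ a, f a :=
  sum_fiberwise_of_maps_to (g := fun a : Fin m => Nat.log 2 (a.1 + 1)) (fun a _ => by
    have := Nat.log_mono_right (b := 2) (show a.1 + 1 ≤ m from a.2)
    exact mem_range.2 (by omega)) f

theorem total {s : Fin m → ℝ} (s0 : ∀ a, 0 ≤ s a) (sa : Antitone s) (ρ : ℕ → ℝ)
    (ρ0 : ∀ k, 2 ^ (k + 1) - 2 < m → ρ k ≠ 0) :
    (∑ a, s a) ^ 2 ≤ 256 * (∑ k ∈ range (Nat.log 2 m + 3), ρ k ^ 2) * ∑ l ∈ range m,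
      ((2 ^ (kk l - 1) : ℕ) : ℝ) * (1 / ρ (kk l) ^ 2) * ext s (2 ^ (kk l + 1) - 2) ^ 2 / 4 := by
  have h1 : ∑ a, s a ≤ 8 * ∑ l ∈ range m, ext s (2 ^ (kk l + 1) - 2) := by
    rw [← ext_sum]
    refine ((sum_le_sum_of_subset_of_nonneg (range_mono (by omega))
      fun _ _ _ => ext_nonneg s0 _).trans (eights _ (ext_anti s0 sa) m)).trans ?_
    exact mul_le_mul_of_nonneg_left (sum_le_sum fun l _ => ext_anti s0 sa (kk_end l)) (by norm_num)
  have h2 := sum_sq_le_sum_mul_sum_of_sq_le_mul (range m)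
    (r := fun l => ext s (2 ^ (kk l + 1) - 2))
    (f := fun l => ρ (kk l) ^ 2 / ((2 ^ (kk l - 1) : ℕ) : ℝ))
    (g := fun l => ((2 ^ (kk l - 1) : ℕ) : ℝ) * (1 / ρ (kk l) ^ 2) * ext s (2 ^ (kk l + 1) - 2) ^ 2)
    (fun _ _ => by positivity) (fun _ _ => by positivity) fun l _ => by
      by_cases e : 2 ^ (kk l + 1) - 2 < m
      · have := ρ0 _ e
        exact le_of_eq (by field_simp)
      · simp [ext, e]
  have h3 : ∑ l ∈ range m, ρ (kk l) ^ 2 / ((2 ^ (kk l - 1) : ℕ) : ℝ) ≤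
      ∑ k ∈ range (Nat.log 2 m + 3), ρ k ^ 2 := by
    rw [← sum_fiberwise_of_maps_to (t := range (Nat.log 2 m + 3)) (g := kk)
      fun l hl => mem_range.2 (kk_le (mem_range.1 hl))]
    refine sum_le_sum fun k _ => ?_
    rw [sum_congr rfl (g := fun _ => ρ k ^ 2 / ((2 ^ (k - 1) : ℕ) : ℝ))
      fun l hl => by rw [(mem_filter.1 hl).2], sum_const, nsmul_eq_mul]
    have c : #{l ∈ range m | kk l = k} ≤ 2 ^ (k - 1) := by
      refine (card_le_card (t := range (2 ^ (k - 1))) fun l hl => ?_).trans_eq (card_range _)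
      rw [← (mem_filter.1 hl).2]; exact mem_range.2 (kk_lt l)
    have c2 : (#{l ∈ range m | kk l = k} : ℝ) ≤ ((2 ^ (k - 1) : ℕ) : ℝ) := by exact_mod_cast c
    rw [mul_div_assoc', div_le_iff₀ (by positivity), mul_comm]
    exact mul_le_mul_of_nonneg_left c2 (sq_nonneg _)
  have h4 := pow_le_pow_left₀ (sum_nonneg fun a _ => s0 a) h1 2
  rw [← sum_div]
  have h5 := mul_le_mul_of_nonneg_right h3 (sum_nonneg (s := range m) fun l _ => (by positivity :
    0 ≤ ((2 ^ (kk l - 1) : ℕ) : ℝ) * (1 / ρ (kk l) ^ 2) * ext s (2 ^ (kk l + 1) - 2) ^ 2))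
  nlinarith

theorem blocks_le (hm : 2 ≤ m) : ((Nat.log 2 m + 3 : ℕ) : ℝ) ≤ 6 * Real.log m := by
  have h2 : Real.log 2 ≤ Real.log m := Real.log_le_log two_pos (by exact_mod_cast hm)
  have h1 : ((2 : ℝ)) ^ Nat.log 2 m ≤ m := by exact_mod_cast Nat.pow_log_le_self 2 (by omega)
  have h3 := Real.log_le_log (by positivity) h1
  rw [Real.log_pow] at h3
  have := Real.log_two_gt_d9
  have h4 : (0 : ℝ) ≤ Nat.log 2 m := Nat.cast_nonneg _
  push_cast
  nlinarith

end Pool.Agent.MP_122bd4_an.Zon
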