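import Pool.Agent.MP_122bd4_an.Zon.Lin
import Pool.Agent.MP_122bd4_an.Unc.Defs

/-! Passing between matrices and Euclidean space; bounds for the balancing constant. -/

open Finset Module
open scoped RealInnerProductSpace Matrix MatrixOrder

namespace Pool.Agent.MP_122bd4_an.Zon

variable {m : ℕ}

theorem root {Q : Matrix (Fin m) (Fin m) ℝ} (hQ : Q.PosDef) :
    ∃ φ : (Fin m → ℝ) ≃ₗ[ℝ] EuclideanSpace ℝ (Fin m), ∀ v, ‖φ v‖ = hn Q v := by
  obtain ⟨L, hL⟩ := CStarAlgebra.nonneg_iff_eq_star_mul_self.1 hQ.posSemidef.nonneg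
  let f : (Fin m → ℝ) →ₗ[ℝ] EuclideanSpace ℝ (Fin m) :=
    (WithLp.linearEquiv 2 ℝ (Fin m → ℝ)).symm.toLinearMap ∘ₗ L.mulVecLin
  have h1 : ∀ v, ‖f v‖ ^ 2 = v ⬝ᵥ Q *ᵥ v := fun v => by
    rw [EuclideanSpace.real_norm_sq_eq, hL, ← Matrix.mulVec_mulVec, Matrix.dotProduct_mulVec,
      Matrix.star_eq_conjTranspose, Matrix.conjTranspose_eq_transpose_of_trivial,
      Matrix.vecMul_transpose]
    simp [f, dotProduct, sq]
  have inj : Function.Injective f := (injective_iff_map_eq_zero f).2 fun v hv => by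
    by_contra n
    have := hQ.dotProduct_mulVec_pos n
    rw [star_trivial, ← h1, hv] at this
    simp at this
  refine ⟨LinearEquiv.ofBijective f ⟨inj,
    (LinearMap.injective_iff_surjective_of_finrank_eq_finrank (by simp)).1 inj⟩, fun v => ?_⟩
  rw [hn, ← h1, Real.sqrt_sq (norm_nonneg _)]
  rfl

theorem bal_le {X Y : (Fin m → ℝ) → ℝ} {c : ℝ} (h : ∀ (n : ℕ) (v : Fin n → Fin m → ℝ),
    (∀ l, X (v l) ≤ 1) → ∃ ε : Fin n → ℝ, (∀ l, ε l = 1 ∨ ε l = -1) ∧ Y (∑ l, ε l • v l) ≤ c) :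
    bal X Y ≤ ENNReal.ofReal c :=
  iSup_le fun n => iSup_le fun v => iSup_le fun hv => by
    obtain ⟨ε, e1, e2⟩ := h n v hv
    exact iInf_le_of_le ε (iInf_le_of_le e1 (ENNReal.ofReal_le_ofReal e2))

theorem le_bal {X Y : (Fin m → ℝ) → ℝ} {c : ℝ} {n : ℕ} (v : Fin n → Fin m → ℝ)
    (hv : ∀ l, X (v l) ≤ 1)
    (h : ∀ ε : Fin n → ℝ, (∀ l, ε l = 1 ∨ ε l = -1) → c ≤ Y (∑ l, ε l • v l)) :
    ENNReal.ofReal c ≤ bal X Y :=
  le_iSup_of_le n (le_iSup_of_le v (le_iSup_of_le hv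
    (le_iInf fun ε => le_iInf fun hε => ENNReal.ofReal_le_ofReal (h ε hε))))

theorem signs {E : Type} [NormedAddCommGroup E] [InnerProductSpace ℝ E] {n : ℕ} (f : Fin n → E) :
    ∃ σ : Fin n → ℝ, (∀ l, σ l = 1 ∨ σ l = -1) ∧ ∑ l, ‖f l‖ ^ 2 ≤ ‖∑ l, σ l • f l‖ ^ 2 := by
  induction n with
  | zero => exact ⟨Fin.elim0, fun l => l.elim0, by simp⟩
  | succ n ih =>
    obtain ⟨σ, s1, s2⟩ := ih fun l => f l.castSucc
    have main : ∀ e : ℝ, (e = 1 ∨ e = -1) →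
        0 ≤ e * ⟪∑ l, σ l • f l.castSucc, f (Fin.last n)⟫ →
        ∃ σ : Fin (n + 1) → ℝ, (∀ l, σ l = 1 ∨ σ l = -1) ∧
          ∑ l, ‖f l‖ ^ 2 ≤ ‖∑ l, σ l • f l‖ ^ 2 := fun e he h => by
      refine ⟨Fin.snoc σ e, fun l => Fin.lastCases (by simpa using he) (by simpa using s1) l, ?_⟩
      rw [Fin.sum_univ_castSucc, Fin.sum_univ_castSucc]
      simp only [Fin.snoc_castSucc, Fin.snoc_last]
      have e2 : e ^ 2 = 1 := by rcases he with k | k <;> simp [k]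
      rw [norm_add_sq_real, norm_smul, mul_pow, Real.norm_eq_abs, sq_abs, e2,
        real_inner_smul_right]
      linarith
    rcases le_total 0 ⟪∑ l, σ l • f l.castSucc, f (Fin.last n)⟫ with k | k
    · exact main 1 (Or.inl rfl) (by linarith)
    · exact main (-1) (Or.inr rfl) (by linarith)

/-- The harmonic number. -/
noncomputable def har (m : ℕ) : ℝ := ∑ k ∈ range m, 1 / (k + 1 : ℝ)

theorem har_eq (m : ℕ) : har m = harmonic m := by
  simp [har, harmonic]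

theorem lt_har (hm : 2 ≤ m) : Real.log m < har m := by
  rw [har_eq]
  refine lt_of_lt_of_le ?_ (log_add_one_le_harmonic m)
  exact Real.log_lt_log (by positivity) (by push_cast; linarith)

end Pool.Agent.MP_122bd4_an.Zon
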