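import Pool.Agent.MP_122bd4_an.Zon.Key
import Pool.Agent.MP_122bd4_an.Zon.Box
import Pool.Agent.MP_122bd4_an.Zon.Tool
import Pool.Agent.MP_122bd4_an.Zon.Scale

/-! Hilbert targets: an ellipsoid whose trace loses only `(log m) ^ (1 / 2 - θ)`. -/

open Finset Module
open scoped RealInnerProductSpace Matrix

namespace Pool.Agent.MP_122bd4_an.Zon

variable {m : ℕ}

theorem core (hm : 2 ≤ m) {θ : ℝ} (θ0 : 0 ≤ θ) (θ1 : θ ≤ 1 / 2) {X : Seminorm ℝ (Fin m → ℝ)}
    (hX : ConvexQuot θ X) {Q : Matrix (Fin m) (Fin m) ℝ} (hQ : Q.PosDef) :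
    ∃ (T : ℝ) (e : Fin m → Fin m → ℝ), 0 < T ∧
      (∀ v, X v ≤ 1 → ∀ z, (v ⬝ᵥ z) ^ 2 ≤ ∑ a, (e a ⬝ᵥ z) ^ 2) ∧ ∑ a, hn Q (e a) ^ 2 ≤ T ^ 2 ∧
      ENNReal.ofReal T ≤ ENNReal.ofReal (40 * Real.log m ^ (1 / 2 - θ)) * bal X (hn Q) := by
  obtain ⟨N, W, B, hW, h2, hC, hB⟩ := hX
  obtain ⟨φ, hφ⟩ := root hQ
  let b : Fin N → EuclideanSpace ℝ (Fin m) := fun i => φ (B *ᵥ Pi.single i 1)
  have im : ∀ x, φ (B *ᵥ x) = ∑ i, x i • b i := fun x => by
    conv_lhs => rw [Unc.expand x, ← Matrix.mulVecLin_apply]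
    simp only [map_sum, map_smul, Matrix.mulVecLin_apply, b]
  obtain ⟨t, t0, t1, tp, top⟩ := box hW h2 (fun i => ‖b i‖) fun i => norm_nonneg _
  let u : Fin N → EuclideanSpace ℝ (Fin m) := fun i => ‖b i‖⁻¹ • b i
  let w : Fin N → ℝ := fun i => ‖b i‖ * t i
  have w0 : ∀ i, 0 ≤ w i := fun i => mul_nonneg (norm_nonneg _) (t0 i)
  have bu : ∀ i, ‖b i‖ • u i = b i := fun i => by
    by_cases k : b i = 0
    · simp [k]
    · rw [smul_smul, mul_inv_cancel₀ (norm_ne_zero_iff.2 k), one_smul]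
  have u1 : ∀ i, ‖u i‖ ≤ 1 := fun i => by
    rw [norm_smul, norm_inv, norm_norm]; exact inv_mul_le_one
  obtain ⟨g, s, sa, hs⟩ := diag (m := m) (by simp) w u
  set T := ∑ i, ‖b i‖ * t i with hT
  have sT : ∑ a, s a = T := (trace w u g s hs).trans (sum_congr rfl fun i _ => by
    by_cases k : b i = 0
    · simp [w, k]
    · rw [norm_smul, norm_inv, norm_norm, inv_mul_cancel₀ (norm_ne_zero_iff.2 k)]; simp [w])
  have sc : ∀ (v : Fin m → ℝ) (r : ℝ), X v < r → ∃ x, W x ≤ 1 ∧ B *ᵥ x = r⁻¹ • v :=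
    fun v r hr => (hB _).1 (by
      have r0 : 0 < r := (apply_nonneg X v).trans_lt hr
      rw [map_smul_eq_mul, Real.norm_of_nonneg (inv_nonneg.2 r0.le), inv_mul_le_one₀ r0]
      exact hr.le)
  have sp : ∀ a, 0 < s a := fun a => by
    rw [← coef g s a, ← hs]
    refine (sum_nonneg fun i _ => mul_nonneg (w0 i) (sq_nonneg _)).lt_of_ne' fun z => ?_
    rw [sum_eq_zero_iff_of_nonneg fun i _ => mul_nonneg (w0 i) (sq_nonneg _)] at z
    have k : ∀ i, ⟪b i, g a⟫ = 0 := fun i => by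
      by_cases e : b i = 0
      · simp [e]
      · have p := norm_pos_iff.2 e
        have := (mul_eq_zero.1 (z i (mem_univ _))).resolve_left (mul_pos p (tp i p)).ne'
        rw [← bu i, real_inner_smul_left, pow_eq_zero_iff two_ne_zero |>.1 this, mul_zero]
    obtain ⟨x, -, hx⟩ := sc (φ.symm (g a)) _ (lt_add_one _)
    have e := im x
    rw [hx, map_smul, φ.apply_symm_apply] at e
    have e2 := congrArg (fun y => ⟪y, g a⟫) e
    simp only [sum_inner, real_inner_smul_left, k, mul_zero, sum_const_zero,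
      real_inner_self_eq_norm_sq, g.orthonormal.1 a] at e2
    have : 0 < (X (φ.symm (g a)) + 1)⁻¹ := by positivity
    linarith
  have T0 : 0 < T := by
    rw [← sT]; exact sum_pos (fun a _ => sp a) ⟨⟨0, by omega⟩, mem_univ _⟩
  have ball : ∀ x, W x ≤ 1 → ∑ a, 1 / (T * s a) * ⟪g a, φ (B *ᵥ x)⟫ ^ 2 ≤ 1 := fun x hx => by
    set y := φ (B *ᵥ x) with hy
    set P := ∑ a, ⟪g a, y⟫ ^ 2 / s a with hP
    have P0 : 0 ≤ P := sum_nonneg fun a _ => div_nonneg (sq_nonneg _) (sp a).le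
    let z := ∑ a, (⟪g a, y⟫ / s a) • g a
    have z1 : ∀ a, ⟪g a, z⟫ = ⟪g a, y⟫ / s a := fun a => by
      simpa using g.orthonormal.inner_right_fintype (fun a => ⟪g a, y⟫ / s a) a
    have z2 : ⟪y, z⟫ = P := by
      rw [← g.sum_inner_mul_inner y z]
      exact sum_congr rfl fun a _ => by rw [z1, real_inner_comm]; ring
    have z3 : ∑ i, w i * ⟪u i, z⟫ ^ 2 = P := by
      rw [hs]
      exact sum_congr rfl fun a _ => by rw [z1]; have := (sp a).ne'; field_simp
    have z4 : ⟪y, z⟫ = ∑ i, x i * ‖b i‖ * ⟪u i, z⟫ := by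
      rw [hy, im, sum_inner]
      refine sum_congr rfl fun i _ => ?_
      conv_lhs => rw [← bu i, smul_smul, real_inner_smul_left]
    have cs := sum_sq_le_sum_mul_sum_of_sq_le_mul univ (r := fun i => x i * ‖b i‖ * ⟪u i, z⟫)
      (f := fun i => ‖b i‖ * x i ^ 2 / t i) (g := fun i => w i * ⟪u i, z⟫ ^ 2)
      (fun i _ => div_nonneg (by positivity) (t0 i))
      (fun i _ => mul_nonneg (w0 i) (sq_nonneg _)) fun i _ => by
        by_cases e : b i = 0
        · simp [e]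
        · have := (tp i (norm_pos_iff.2 e)).ne'
          refine le_of_eq ?_
          simp only [w]; field_simp
    rw [← z4, z2, z3] at cs
    have PT : P ≤ T := by
      by_contra n
      have := mul_le_mul_of_nonneg_right (top x hx) P0
      nlinarith
    have : ∑ a, 1 / (T * s a) * ⟪g a, y⟫ ^ 2 = P / T := by
      rw [hP, sum_div]
      exact sum_congr rfl fun a _ => by have := (sp a).ne'; field_simp
    rw [this, div_le_one T0]
    exact PT
  refine ⟨T, fun a => √(T * s a) • φ.symm (g a), T0, fun v hv z => ?_, le_of_eq ?_, ?_⟩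
  · obtain ⟨x, x1, rfl⟩ := (hB v).1 hv
    have e : B *ᵥ x = ∑ a, ⟪g a, φ (B *ᵥ x)⟫ • φ.symm (g a) := by
      conv_lhs => rw [← φ.symm_apply_apply (B *ᵥ x), ← g.sum_repr' (φ (B *ᵥ x))]
      simp only [map_sum, map_smul]
    have cs := sum_sq_le_sum_mul_sum_of_sq_le_mul univ
      (r := fun a => ⟪g a, φ (B *ᵥ x)⟫ * (φ.symm (g a) ⬝ᵥ z))
      (f := fun a => 1 / (T * s a) * ⟪g a, φ (B *ᵥ x)⟫ ^ 2)
      (g := fun a => ((√(T * s a) • φ.symm (g a)) ⬝ᵥ z) ^ 2)
      (fun a _ => by have := sp a; positivity) (fun a _ => sq_nonneg _) fun a _ => by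
        have := sp a
        rw [smul_dotProduct, smul_eq_mul, mul_pow, mul_pow, Real.sq_sqrt (by positivity)]
        exact le_of_eq (by field_simp)
    have e2 : (B *ᵥ x) ⬝ᵥ z = ∑ a, ⟪g a, φ (B *ᵥ x)⟫ * (φ.symm (g a) ⬝ᵥ z) := by
      conv_lhs => rw [e, sum_dotProduct]
      simp only [smul_dotProduct, smul_eq_mul]
    rw [e2]
    exact cs.trans (mul_le_of_le_one_left (sum_nonneg fun a _ => sq_nonneg _) (ball x x1))
  · rw [sq T]
    conv_rhs => rw [← sT, mul_sum, sT]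
    refine sum_congr rfl fun a _ => ?_
    have := sp a
    rw [← hφ, map_smul, φ.apply_symm_apply, norm_smul, g.orthonormal.1 a, mul_one,
      Real.norm_eq_abs, sq_abs, Real.sq_sqrt (by positivity)]
  · have s0 : ∀ a, 0 ≤ s a := fun a => (sp a).le
    let π : ℕ → Fin N → ℝ := fun k i => ∑ a ∈ blk m k, ⟪g a, u i⟫ ^ 2
    have π0 : ∀ k i, 0 ≤ π k i := fun k i => sum_nonneg fun _ _ => sq_nonneg _
    let ρ : ℕ → ℝ := fun k => W fun i => t i * √(π k i)
    have ρ0 : ∀ k, 2 ^ (k + 1) - 2 < m → ρ k ≠ 0 := fun k hk z => by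
      obtain ⟨a, ha⟩ := card_pos.1 ((Nat.two_pow_pos k).trans_le (blk_card hk))
      refine (sp a).ne' ?_
      rw [← coef g s a, ← hs]
      refine sum_eq_zero fun i _ => ?_
      rcases mul_eq_zero.1 (congrFun (hW.1 _ z) i) with e | e
      · simp [w, e]
      · have := (sum_eq_zero_iff_of_nonneg fun _ _ => sq_nonneg _).1
          ((Real.sqrt_eq_zero (π0 k i)).1 e) a ha
        rw [real_inner_comm, this, mul_zero]
    have ρ1 : ∑ k ∈ range (Nat.log 2 m + 3), ρ k ^ 2 ≤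
        ((Nat.log 2 m + 3 : ℕ) : ℝ) ^ (1 - 2 * θ) := by
      rw [← Fin.sum_univ_eq_sum_range (fun k => ρ k ^ 2)]
      refine (hC _ fun (k : Fin (Nat.log 2 m + 3)) i => t i * √(π k i)).trans
        (mul_le_of_le_one_right (by positivity) (pow_le_one₀ (apply_nonneg W _)
          ((Unc.mono hW fun i => ?_).trans t1)))
      rw [abs_of_nonneg (Real.sqrt_nonneg _), abs_of_nonneg (t0 i)]
      refine Real.sqrt_le_iff.2 ⟨t0 i, ?_⟩
      simp only [mul_pow, Real.sq_sqrt (π0 _ i), ← mul_sum]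
      refine mul_le_of_le_one_right (sq_nonneg _) ?_
      rw [Fin.sum_univ_eq_sum_range (fun k => π k i), blk_sum, parseval]
      exact pow_le_one₀ (norm_nonneg _) (u1 i)
    obtain ⟨y, y1, y2⟩ := family {y | X (φ.symm y) ≤ 1} (fun l => ((2 ^ (kk l - 1) : ℕ) : ℝ) *
        (1 / ρ (kk l) ^ 2) * ext s (2 ^ (kk l + 1) - 2) ^ 2 / 4) (fun l r => by
      by_cases e : 2 ^ (kk l + 1) - 2 < m
      · have rp : 0 < ρ (kk l) := (apply_nonneg W _).lt_of_ne' (ρ0 _ e)
        obtain ⟨x, x1, x2, x3⟩ := key (m := m) (by simp) w w0 u g s hs (blk m (kk l))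
          (ext_nonneg s0 (2 ^ (kk l + 1) - 2)) (κ := 1 / ρ (kk l) ^ 2) (by positivity)
          (fun a ha => (ext_anti s0 sa (blk_le ha)).trans_eq (ext_val s a))
          (fun i => √(π (kk l) i) / ρ (kk l)) (fun i => by positivity)
          (fun i => le_of_eq (by rw [div_pow, Real.sq_sqrt (π0 _ i)]; ring)) r
          (Nat.two_pow_pos (kk l - 1)) ((kk_room l).trans (blk_card e))
        refine ⟨_, ?_, x2, x3⟩
        have e2 : ∑ i, (x i * w i) • u i = φ (B *ᵥ fun i => x i * t i) := by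
          rw [im]
          refine sum_congr rfl fun i _ => ?_
          conv_rhs => rw [← bu i, smul_smul]
          exact congrArg (· • u i) (by simp only [w]; ring)
        rw [Set.mem_ofPred_eq, e2, φ.symm_apply_apply]
        refine (hB _).2 ⟨_, (Unc.mono hW
          (w := (ρ (kk l))⁻¹ • fun i => t i * √(π (kk l) i)) fun i => ?_).trans ?_, rfl⟩
        · have := t0 i
          rw [abs_mul, abs_of_nonneg this, Pi.smul_apply, smul_eq_mul]
          exact ((mul_le_mul_of_nonneg_right (x1 i) this).trans_eq (by ring)).trans (le_abs_self _)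
        · rw [map_smul_eq_mul, Real.norm_of_nonneg (inv_nonneg.2 rp.le)]
          exact inv_mul_le_one
      · exact ⟨0, by simp, by simp, by simp [ext, e]⟩) m
    have k := total s0 sa ρ ρ0
    set P := ∑ l ∈ range m, ((2 ^ (kk l - 1) : ℕ) : ℝ) *
      (1 / ρ (kk l) ^ 2) * ext s (2 ^ (kk l + 1) - 2) ^ 2 / 4 with hP
    have lo : ENNReal.ofReal √P ≤ bal X (hn Q) :=
      le_bal (fun l => φ.symm (y l)) y1 fun ε hε => by
        rw [← hφ, Real.sqrt_le_iff]
        refine ⟨norm_nonneg _, (y2 ε hε).trans (le_of_eq ?_)⟩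
        simp only [map_sum, map_smul, φ.apply_symm_apply]
    refine le_trans ?_ (mul_le_mul_right lo _)
    have l0 : 0 ≤ Real.log m := Real.log_natCast_nonneg m
    rw [← ENNReal.ofReal_mul (by positivity)]
    refine ENNReal.ofReal_le_ofReal (abs_le_of_sq_le_sq' ?_ (by positivity)).2
    have P0 : 0 ≤ P := sum_nonneg fun l _ => by positivity
    have e1 : (Real.log m ^ (1 / 2 - θ)) ^ 2 = Real.log m ^ (1 - 2 * θ) := by
      rw [← Real.rpow_natCast, ← Real.rpow_mul l0]; exact congrArg _ (by push_cast; ring)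
    have e2 : ((Nat.log 2 m + 3 : ℕ) : ℝ) ^ (1 - 2 * θ) ≤ 6 * Real.log m ^ (1 - 2 * θ) := by
      refine (Real.rpow_le_rpow (Nat.cast_nonneg _) (blocks_le hm) (by linarith)).trans ?_
      rw [Real.mul_rpow (by norm_num) l0]
      refine mul_le_mul_of_nonneg_right ?_ (by positivity)
      exact (Real.rpow_le_rpow_of_exponent_le (by norm_num) (by linarith)).trans_eq
        (Real.rpow_one _)
    rw [sT] at k
    rw [mul_pow, mul_pow, e1, Real.sq_sqrt P0]
    have : 0 ≤ Real.log m ^ (1 - 2 * θ) := by positivity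
    nlinarith [mul_le_mul_of_nonneg_right (ρ1.trans e2) P0, mul_nonneg this P0]

end Pool.Agent.MP_122bd4_an.Zon
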