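import Pool.Agent.MP_122bd4_an.Unc.Defs

/-! Quotients of 2-convex unconditional norms; type 2. -/

open scoped Matrix

namespace Pool.Agent.MP_122bd4_an

/-- `W` is 2-convex with constant one. -/
def TwoConvex {N : ℕ} (W : Seminorm ℝ (Fin N → ℝ)) : Prop :=
  ∀ x y : Fin N → ℝ, W (fun i => √(x i ^ 2 + y i ^ 2)) ^ 2 ≤ W x ^ 2 + W y ^ 2

/-- The 2-concavity constant of `W` on `n` vectors is at most `n ^ (1 / 2 - θ)`. -/
def SquareConcave (θ : ℝ) {N : ℕ} (W : Seminorm ℝ (Fin N → ℝ)) : Prop :=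
  ∀ (n : ℕ) (x : Fin n → Fin N → ℝ),
    ∑ k, W (x k) ^ 2 ≤ (n : ℝ) ^ (1 - 2 * θ) * W (fun i => √(∑ k, x k i ^ 2)) ^ 2

/-- The unit ball of `X` is a linear image of the unit ball of a 2-convex unconditional norm whose
2-concavity constant on `n` vectors is at most `n ^ (1 / 2 - θ)`. -/
def ConvexQuot (θ : ℝ) {m : ℕ} (X : Seminorm ℝ (Fin m → ℝ)) : Prop :=
  ∃ (N : ℕ) (W : Seminorm ℝ (Fin N → ℝ)) (B : Matrix (Fin m) (Fin N) ℝ),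
    UncNorm W ∧ TwoConvex W ∧ SquareConcave θ W ∧ ∀ v, X v ≤ 1 ↔ ∃ x, W x ≤ 1 ∧ B *ᵥ x = v

/-- `Y` has Rademacher type 2 with constant at most `τ`. -/
def TypeTwo (τ : ℝ) {m : ℕ} (Y : Seminorm ℝ (Fin m → ℝ)) : Prop :=
  ∀ (n : ℕ) (y : Fin n → Fin m → ℝ),
    ∑ σ : Fin n → Bool, Y (∑ j, (if σ j then (1 : ℝ) else -1) • y j) ^ 2 ≤
      2 ^ n * (τ ^ 2 * ∑ j, Y (y j) ^ 2)

end Pool.Agent.MP_122bd4_an
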