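import Pool.Agent.MP_122bd4_an.Zon.Lin

/-! Long vectors in sections of a zonotope, and long orthogonal families. -/

open Finset Module
open scoped RealInnerProductSpace

namespace Pool.Agent.MP_122bd4_an.Zon

variable {E : Type} [NormedAddCommGroup E] [InnerProductSpace ℝ E] [FiniteDimensional ℝ E]

theorem room {N : ℕ} (R x h : Fin N → ℝ) (hx : ∀ i, |x i| ≤ R i)
    (hh : ∀ i, ¬ |x i| < R i → h i = 0) : ∃ τ : ℝ, 0 < τ ∧ ∀ i, |x i| + τ * |h i| ≤ R i := by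
  have key : ∀ i, ∀ᶠ τ : ℝ in nhds 0, |x i| + τ * |h i| ≤ R i := fun i => by
    by_cases k : |x i| < R i
    · have c : Continuous fun τ : ℝ => |x i| + τ * |h i| := by fun_prop
      exact (c.continuousAt.eventually_lt continuousAt_const (by simpa using k)).mono
        fun _ => le_of_lt
    · simp [hh i k, hx i]
  obtain ⟨τ, h1, h2⟩ := (((Filter.eventually_all.2 key).filter_mono nhdsWithin_le_nhds).and
    (self_mem_nhdsWithin (s := Set.Ioi (0 : ℝ)) (a := 0))).exists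
  exact ⟨τ, h2, h1⟩

/-- The section of the zonotope by the orthogonal complement of `ρ` vectors holds a long vector. -/
theorem key {N m ρ D : ℕ} (hm : finrank ℝ E = m) (w : Fin N → ℝ) (hw : ∀ i, 0 ≤ w i)
    (u : Fin N → E) (g : OrthonormalBasis (Fin m) ℝ E) (s : Fin m → ℝ)
    (hs : ∀ z, ∑ i, w i * ⟪u i, z⟫ ^ 2 = ∑ a, s a * ⟪g a, z⟫ ^ 2)
    (J : Finset (Fin m)) {σ κ : ℝ} (s0 : 0 ≤ σ) (κ0 : 0 ≤ κ) (hJ : ∀ a ∈ J, σ ≤ s a)
    (R : Fin N → ℝ) (R0 : ∀ i, 0 ≤ R i) (hR : ∀ i, κ * ∑ a ∈ J, ⟪g a, u i⟫ ^ 2 ≤ R i ^ 2)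
    (r : Fin ρ → E) (D0 : 0 < D) (hD : D + ρ ≤ #J) :
    ∃ x : Fin N → ℝ, (∀ i, |x i| ≤ R i) ∧ (∀ j, ⟪r j, ∑ i, (x i * w i) • u i⟫ = 0) ∧
      D * κ * σ ^ 2 / 4 ≤ ‖∑ i, (x i * w i) • u i‖ ^ 2 := by
  classical
  let B : (Fin N → ℝ) → E := fun x => ∑ i, (x i * w i) • u i
  have Bl : ∀ (x h : Fin N → ℝ) (t : ℝ), B (fun i => x i + t * h i) = B x + t • B h :=
    fun x h t => by
      simp only [B, smul_sum, ← sum_add_distrib, smul_smul, ← add_smul]
      exact sum_congr rfl fun i _ => by ring_nf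
  let K : Set (Fin N → ℝ) := Set.Icc (-R) R ∩ ⋂ j, {x | ⟪r j, B x⟫ = 0}
  have mK : ∀ x, x ∈ K ↔ (∀ i, |x i| ≤ R i) ∧ ∀ j, ⟪r j, B x⟫ = 0 := fun x => by
    simp [K, abs_le, Pi.le_def, forall_and]
  have cB : Continuous B := by fun_prop
  have cK : IsCompact K := isCompact_Icc.inter_right
    (isClosed_iInter fun j => isClosed_eq (by fun_prop) continuous_const)
  let Φ : (Fin N → ℝ) → ℝ := fun x => ‖B x‖ ^ 2 - σ / 2 * ∑ i, w i * x i ^ 2
  have z0 : (0 : Fin N → ℝ) ∈ K := (mK _).2 ⟨by simpa using R0, by simp [B]⟩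
  obtain ⟨x, hx, mx⟩ := cK.exists_isMaxOn ⟨0, z0⟩ (f := Φ) (by fun_prop)
  obtain ⟨x1, x2⟩ := (mK x).1 hx
  refine ⟨x, x1, x2, ?_⟩
  have f0 : σ / 2 * ∑ i, w i * x i ^ 2 ≤ ‖B x‖ ^ 2 := by
    have : Φ 0 ≤ Φ x := mx z0
    simp only [Φ, B, Pi.zero_apply, zero_mul, zero_smul, sum_const_zero, norm_zero] at this ⊢
    simp at this
    linarith
  let al : Fin N → ℝ := fun i => if |x i| < R i then 1 else 0
  let c : Fin ρ ⊕ {a // a ∉ J} → E := Sum.elim
    (fun j => ∑ i, (al i * w i * ⟪u i, r j⟫) • u i) fun a => g a.1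
  let p : Fin N → E := fun i => ∑ a, (if a ∈ J then ⟪g a, u i⟫ else 0) • g a
  have p1 : ∀ i a, ⟪g a, p i⟫ = if a ∈ J then ⟪g a, u i⟫ else 0 := fun i a =>
    g.orthonormal.inner_right_fintype _ a
  have p2 : ∀ i, ‖p i‖ ^ 2 = ∑ a ∈ J, ⟪g a, u i⟫ ^ 2 := fun i => by
    rw [← parseval g]
    simp only [p1, ite_pow, sum_ite_mem, univ_inter, ne_eq, OfNat.ofNat_ne_zero,
      not_false_eq_true, zero_pow]
  have cd : Fintype.card {a // a ∉ J} + #J = m := by
    rw [Fintype.card_subtype_compl, Fintype.card_coe, Fintype.card_fin]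
    have := J.card_le_univ
    rw [Fintype.card_fin] at this
    omega
  obtain ⟨z, z1, z2, z3⟩ := avg c (fun i => (1 - al i) * w i)
    (fun i => mul_nonneg (by simp only [al]; split_ifs <;> norm_num) (hw i)) p
    (g := D) D0 (by rw [Fintype.card_sum, Fintype.card_fin]; omega)
  have zJ : ∀ a, a ∉ J → ⟪g a, z⟫ = 0 := fun a k => z2 (Sum.inr ⟨a, k⟩)
  have p3 : ∀ i, ⟪p i, z⟫ = ⟪u i, z⟫ := fun i => by
    rw [← g.sum_inner_mul_inner (p i) z, ← g.sum_inner_mul_inner (u i) z]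
    refine sum_congr rfl fun a _ => ?_
    by_cases k : a ∈ J
    · rw [real_inner_comm, p1, if_pos k, real_inner_comm]
    · rw [zJ a k, mul_zero, mul_zero]
  let h : Fin N → ℝ := fun i => al i * ⟪u i, z⟫
  have h1 : ∀ j, ⟪r j, B h⟫ = 0 := fun j => by
    rw [← z2 (Sum.inl j)]
    simp only [B, h, c, Sum.elim_inl, inner_sum, sum_inner, real_inner_smul_left,
      real_inner_smul_right, real_inner_comm (u _) (r j)]
    exact sum_congr rfl fun i _ => by ring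
  have al2 : ∀ i, al i * al i = al i := fun i => by simp only [al]; split_ifs <;> norm_num
  set qA := ∑ i, al i * w i * ⟪u i, z⟫ ^ 2 with hqA
  have h2 : ∑ i, w i * h i ^ 2 = qA := sum_congr rfl fun i _ => by
    simp only [h]; linear_combination (w i * ⟪u i, z⟫ ^ 2) * al2 i
  have h3 : ⟪z, B h⟫ = qA := by
    simp only [B, h, inner_sum, real_inner_smul_right, real_inner_comm (u _) z]
    exact sum_congr rfl fun i _ => by ring
  obtain ⟨τ, t0, t1⟩ := room R x h x1 fun i k => by simp [h, al, k]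
  have mem : ∀ t : ℝ, |t| = τ → (fun i => x i + t * h i) ∈ K := fun t ht =>
    (mK _).2 ⟨fun i => (abs_add_le _ _).trans (by rw [abs_mul, ht]; exact t1 i),
      fun j => by rw [Bl, inner_add_right, real_inner_smul_right, x2, h1]; ring⟩
  have ex : ∀ t : ℝ, Φ (fun i => x i + t * h i) = Φ x +
      t * (2 * ⟪B x, B h⟫ - σ * ∑ i, w i * (x i * h i)) + t ^ 2 * (‖B h‖ ^ 2 - σ / 2 * qA) :=
    fun t => by
      have e : ∑ i, w i * (x i + t * h i) ^ 2 = ∑ i, w i * x i ^ 2 +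
          2 * t * ∑ i, w i * (x i * h i) + t ^ 2 * ∑ i, w i * h i ^ 2 := by
        simp only [mul_sum, ← sum_add_distrib]
        exact sum_congr rfl fun i _ => by ring
      simp only [Φ]
      rw [Bl, norm_add_sq_real, real_inner_smul_right, norm_smul, mul_pow, Real.norm_eq_abs,
        sq_abs, e, h2]
      ring
  have a1 : Φ _ ≤ Φ x := mx (mem τ (abs_of_pos t0))
  have a2 : Φ _ ≤ Φ x := mx (mem (-τ) (by rw [abs_neg, abs_of_pos t0]))
  rw [ex] at a1 a2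
  have a3 : ‖B h‖ ^ 2 ≤ σ / 2 * qA := by
    have : τ ^ 2 * (‖B h‖ ^ 2 - σ / 2 * qA) ≤ 0 := by nlinarith
    have := nonpos_of_mul_nonpos_right this (by positivity)
    linarith
  have a4 : qA ≤ σ / 2 := by
    have k : |qA| ≤ ‖B h‖ := by
      have := abs_real_inner_le_norm z (B h)
      rwa [h3, z1, one_mul] at this
    have k2 : qA ^ 2 ≤ ‖B h‖ ^ 2 := by
      rw [← sq_abs qA]; exact pow_le_pow_left₀ (abs_nonneg _) k 2
    by_contra n
    nlinarith
  have a5 : σ ≤ ∑ i, w i * ⟪u i, z⟫ ^ 2 := by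
    rw [hs]
    calc σ = ∑ a, σ * ⟪g a, z⟫ ^ 2 := by rw [← mul_sum, parseval, z1]; ring
      _ ≤ _ := sum_le_sum fun a _ => by
        by_cases k : a ∈ J
        · exact mul_le_mul_of_nonneg_right (hJ a k) (sq_nonneg _)
        · rw [zJ a k]; simp
  have a6 : ∑ i, (1 - al i) * w i * ⟪p i, z⟫ ^ 2 = ∑ i, w i * ⟪u i, z⟫ ^ 2 - qA := by
    rw [hqA, ← sum_sub_distrib]; exact sum_congr rfl fun i _ => by rw [p3]; ring
  have a7 : κ * ∑ i, (1 - al i) * w i * ‖p i‖ ^ 2 ≤ ∑ i, w i * x i ^ 2 := by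
    rw [mul_sum]
    refine sum_le_sum fun i _ => ?_
    by_cases k : |x i| < R i
    · simp only [al, if_pos k, sub_self, zero_mul, mul_zero]; exact mul_nonneg (hw i) (sq_nonneg _)
    · have e : x i ^ 2 = R i ^ 2 := by rw [← sq_abs, le_antisymm (x1 i) (not_lt.1 k)]
      simp only [al, if_neg k, sub_zero, one_mul, e, p2]
      rw [mul_left_comm]
      exact mul_le_mul_of_nonneg_left (hR i) (hw i)
  rw [a6] at z3
  have d0 : (0 : ℝ) ≤ D := Nat.cast_nonneg _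
  have a8 : κ * (D * (σ / 2)) ≤ ∑ i, w i * x i ^ 2 :=
    (mul_le_mul_of_nonneg_left ((mul_le_mul_of_nonneg_left (by linarith) d0).trans z3) κ0).trans a7
  have := mul_le_mul_of_nonneg_left a8 (by positivity : 0 ≤ σ / 2)
  show _ ≤ ‖B x‖ ^ 2
  nlinarith

omit [FiniteDimensional ℝ E] in
/-- Orthogonal selection: a family of vectors of `S` all of whose signed sums are long. -/
theorem family (S : Set E) (c : ℕ → ℝ)
    (h : ∀ (l : ℕ) (r : Fin l → E), ∃ y ∈ S, (∀ j, ⟪r j, y⟫ = 0) ∧ c l ≤ ‖y‖ ^ 2) (n : ℕ) :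
    ∃ x : Fin n → E, (∀ l, x l ∈ S) ∧ ∀ ε : Fin n → ℝ, (∀ l, ε l = 1 ∨ ε l = -1) →
      ∑ l ∈ range n, c l ≤ ‖∑ l, ε l • x l‖ ^ 2 := by
  induction n with
  | zero => exact ⟨Fin.elim0, fun l => l.elim0, by simp⟩
  | succ n ih =>
    obtain ⟨x, x1, x2⟩ := ih
    obtain ⟨y, y1, y2, y3⟩ := h n x
    refine ⟨Fin.snoc x y, fun l => Fin.lastCases (by simpa using y1) (by simpa using x1) l,
      fun ε hε => ?_⟩
    rw [sum_range_succ, Fin.sum_univ_castSucc]
    simp only [Fin.snoc_castSucc, Fin.snoc_last]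
    have e : ε (Fin.last n) ^ 2 = 1 := by rcases hε (Fin.last n) with k | k <;> simp [k]
    rw [norm_add_sq_real, norm_smul, mul_pow, Real.norm_eq_abs, sq_abs, e,
      real_inner_smul_right, sum_inner]
    simp only [real_inner_smul_left, y2, mul_zero, sum_const_zero]
    have := x2 (fun l => ε l.castSucc) fun l => hε _
    linarith

end Pool.Agent.MP_122bd4_an.Zon
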