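import Mathlib

/-! Linear algebra: a trace averaging lemma and the diagonal form of a sum of squares. -/

open Finset Module
open scoped RealInnerProductSpace

namespace Pool.Agent.MP_122bd4_an.Zon

variable {E : Type} [NormedAddCommGroup E] [InnerProductSpace ℝ E] [FiniteDimensional ℝ E]

/-- In the orthogonal complement of few vectors there is a unit vector on which a sum of squares
is at most its average. -/
theorem avg {ι κ : Type} [Fintype ι] [Fintype κ] (c : ι → E) (w : κ → ℝ) (hw : ∀ i, 0 ≤ w i)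
    (u : κ → E) {g : ℕ} (hg : 0 < g) (hd : g + Fintype.card ι ≤ finrank ℝ E) :
    ∃ z : E, ‖z‖ = 1 ∧ (∀ j, ⟪c j, z⟫ = 0) ∧
      g * ∑ i, w i * ⟪u i, z⟫ ^ 2 ≤ ∑ i, w i * ‖u i‖ ^ 2 := by
  set V : Submodule ℝ E := (Submodule.span ℝ (Set.range c))ᗮ with hV
  have h1 : g ≤ finrank ℝ V := by
    have a := (Submodule.span ℝ (Set.range c)).finrank_add_finrank_orthogonal
    have b : finrank ℝ (Submodule.span ℝ (Set.range c)) ≤ Fintype.card ι :=
      finrank_range_le_card c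
    rw [← hV] at a
    omega
  set e := stdOrthonormalBasis ℝ V with he
  have on : Orthonormal ℝ (fun j => (e j : E)) := e.orthonormal.comp_linearIsometry V.subtypeₗᵢ
  have hs : ∑ j, ∑ i, w i * ⟪u i, (e j : E)⟫ ^ 2 ≤ ∑ i, w i * ‖u i‖ ^ 2 := by
    rw [sum_comm]
    refine sum_le_sum fun i _ => ?_
    rw [← mul_sum]
    refine mul_le_mul_of_nonneg_left ?_ (hw i)
    have := on.sum_inner_products_le (s := univ) (u i)
    simpa [real_inner_comm, sq_abs] using this
  have ne : (univ : Finset (Fin (finrank ℝ V))).Nonempty := ⟨⟨0, by omega⟩, mem_univ _⟩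
  obtain ⟨j, -, hj⟩ := exists_min_image univ (fun j => ∑ i, w i * ⟪u i, (e j : E)⟫ ^ 2) ne
  refine ⟨e j, on.1 j, fun k => ?_, ?_⟩
  · exact (Submodule.mem_orthogonal _ _).1 (e j).2 _ (Submodule.subset_span ⟨k, rfl⟩)
  · have q0 : 0 ≤ ∑ i, w i * ⟪u i, (e j : E)⟫ ^ 2 :=
      sum_nonneg fun i _ => mul_nonneg (hw i) (sq_nonneg _)
    have := card_nsmul_le_sum univ _ _ fun k hk => hj k hk
    rw [card_univ, Fintype.card_fin, nsmul_eq_mul] at this
    have h2 : (g : ℝ) ≤ finrank ℝ V := by exact_mod_cast h1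
    exact ((mul_le_mul_of_nonneg_right h2 q0).trans this).trans hs

/-- Diagonal form of a sum of squares of linear forms, with decreasing coefficients. -/
theorem diag {κ : Type} [Fintype κ] {m : ℕ} (hm : finrank ℝ E = m) (w : κ → ℝ) (u : κ → E) :
    ∃ (g : OrthonormalBasis (Fin m) ℝ E) (s : Fin m → ℝ), Antitone s ∧
      ∀ z, ∑ i, w i * ⟪u i, z⟫ ^ 2 = ∑ a, s a * ⟪g a, z⟫ ^ 2 := by
  let T : E →ₗ[ℝ] E := ∑ i, w i • (innerₛₗ ℝ (u i)).smulRight (u i)
  have Ta : ∀ z, T z = ∑ i, (w i * ⟪u i, z⟫) • u i := fun z => by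
    simp [T, LinearMap.sum_apply, mul_smul]
  have hT : T.IsSymmetric := fun x y => by
    rw [Ta, Ta, sum_inner, inner_sum]
    refine sum_congr rfl fun i _ => ?_
    rw [real_inner_smul_left, real_inner_smul_right, real_inner_comm (u i) x]; ring
  refine ⟨hT.eigenvectorBasis hm, hT.eigenvalues hm, hT.eigenvalues_antitone hm, fun z => ?_⟩
  have h1 : ⟪T z, z⟫ = ∑ i, w i * ⟪u i, z⟫ ^ 2 := by
    rw [Ta, sum_inner]
    refine sum_congr rfl fun i _ => ?_
    rw [real_inner_smul_left]; ring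
  rw [← h1, ← (hT.eigenvectorBasis hm).sum_inner_mul_inner (T z) z]
  refine sum_congr rfl fun a _ => ?_
  rw [hT z, hT.apply_eigenvectorBasis hm a, real_inner_smul_right, real_inner_comm z]
  simp only [RCLike.ofReal_real_eq_id, id]
  ring

omit [FiniteDimensional ℝ E] in
theorem parseval {m : ℕ} (g : OrthonormalBasis (Fin m) ℝ E) (z : E) :
    ∑ a, ⟪g a, z⟫ ^ 2 = ‖z‖ ^ 2 := by
  rw [← real_inner_self_eq_norm_sq, ← g.sum_inner_mul_inner z z]
  refine sum_congr rfl fun a _ => ?_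
  rw [real_inner_comm (g a) z]; ring

omit [FiniteDimensional ℝ E] in
theorem coef {m : ℕ} (g : OrthonormalBasis (Fin m) ℝ E) (s : Fin m → ℝ) (b : Fin m) :
    ∑ a, s a * ⟪g a, g b⟫ ^ 2 = s b := by
  rw [sum_eq_single b]
  · rw [real_inner_self_eq_norm_sq, g.orthonormal.1 b]; ring
  · intro a _ h; rw [g.orthonormal.2 h]; ring
  · simp

omit [FiniteDimensional ℝ E] in
theorem trace {κ : Type} [Fintype κ] {m : ℕ} (w : κ → ℝ) (u : κ → E)
    (g : OrthonormalBasis (Fin m) ℝ E) (s : Fin m → ℝ)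
    (h : ∀ z, ∑ i, w i * ⟪u i, z⟫ ^ 2 = ∑ a, s a * ⟪g a, z⟫ ^ 2) :
    ∑ a, s a = ∑ i, w i * ‖u i‖ ^ 2 := by
  calc ∑ a, s a = ∑ a, ∑ i, w i * ⟪u i, g a⟫ ^ 2 :=
        sum_congr rfl fun a _ => by rw [h, coef]
    _ = _ := by
      rw [sum_comm]
      refine sum_congr rfl fun i _ => ?_
      rw [← mul_sum, ← parseval g (u i)]
      simp only [real_inner_comm (g _) (u i)]

end Pool.Agent.MP_122bd4_an.Zon
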