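import Pool.Agent.MP_122bd4_an.Zon.Defs
import Pool.Agent.MP_122bd4_an.Unc.Opt

/-! The `ℓ_p` norms, `2 ≤ p ≤ ∞`, belong to the class with `θ = 1 / p`. -/

open Finset

namespace Pool.Agent.MP_122bd4_an.Zon

variable {m : ℕ}

/-- Every unconditional norm satisfies the concavity condition with `θ = 0`. -/
theorem conc_zero {W : Seminorm ℝ (Fin m → ℝ)} (hW : UncNorm W) : SquareConcave 0 W :=
  fun n x => by
    rw [mul_zero, sub_zero, Real.rpow_one]
    refine (sum_le_card_nsmul _ _ _ fun k _ => pow_le_pow_left₀ (apply_nonneg W _)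
      (Unc.mono hW (w := fun i => √(∑ k, x k i ^ 2)) fun i => ?_) 2).trans_eq (by simp)
    rw [abs_of_nonneg (Real.sqrt_nonneg _)]
    exact Real.abs_le_sqrt (single_le_sum (f := fun k => x k i ^ 2) (fun _ _ => sq_nonneg _)
      (mem_univ k))

theorem sup_unc : UncNorm (normSeminorm ℝ (Fin m → ℝ)) := by
  refine ⟨fun v h => norm_eq_zero.1 h, fun σ v h => ?_⟩
  have : ∀ j, ‖σ j * v j‖ = ‖v j‖ := fun j => by rcases h j with k | k <;> simp [k]
  show ‖fun j => σ j * v j‖ = ‖v‖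
  refine le_antisymm ((pi_norm_le_iff_of_nonneg (norm_nonneg _)).2 fun j => ?_)
    ((pi_norm_le_iff_of_nonneg (norm_nonneg _)).2 fun j => ?_)
  · exact (this j).trans_le (norm_le_pi_norm v j)
  · exact (this j).symm.trans_le (norm_le_pi_norm (fun j => σ j * v j) j)

theorem sup_convex : TwoConvex (normSeminorm ℝ (Fin m → ℝ)) := fun x y => by
  have k : ‖fun i => √(x i ^ 2 + y i ^ 2)‖ ≤ √(‖x‖ ^ 2 + ‖y‖ ^ 2) :=
    (pi_norm_le_iff_of_nonneg (Real.sqrt_nonneg _)).2 fun i => by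
      rw [Real.norm_of_nonneg (Real.sqrt_nonneg _), ← sq_abs (x i), ← sq_abs (y i)]
      have a : |x i| ≤ ‖x‖ := norm_le_pi_norm x i
      have b : |y i| ≤ ‖y‖ := norm_le_pi_norm y i
      gcongr
  exact (Real.le_sqrt (norm_nonneg _) (by positivity)).1 k

/-- The `ℓ_p` norm with `p = 2 q`. -/
noncomputable def lp (m : ℕ) {q : ℝ} (hq : 1 ≤ q) : Seminorm ℝ (Fin m → ℝ) :=
  Seminorm.of (fun v => (∑ i, |v i| ^ (2 * q)) ^ (1 / (2 * q)))
    (fun v w => Real.Lp_add_le univ v w (by linarith))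
    fun a v => by
      have q0 : 2 * q ≠ 0 := by linarith
      simp only [Pi.smul_apply, smul_eq_mul, abs_mul, Real.norm_eq_abs,
        Real.mul_rpow (abs_nonneg _) (abs_nonneg _), ← mul_sum]
      rw [Real.mul_rpow (by positivity) (by positivity), one_div,
        Real.rpow_rpow_inv (abs_nonneg _) q0]

variable {q : ℝ} (hq : 1 ≤ q)

theorem lp_apply (v : Fin m → ℝ) : lp m hq v = (∑ i, |v i| ^ (2 * q)) ^ (1 / (2 * q)) := rfl

theorem abs_pow (q x : ℝ) : |x| ^ (2 * q) = (x ^ 2) ^ q := by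
  rw [Real.rpow_mul (abs_nonneg _), Real.rpow_two, sq_abs]

theorem lp_sq (v : Fin m → ℝ) : lp m hq v ^ 2 = (∑ i, (v i ^ 2) ^ q) ^ (1 / q) := by
  rw [lp_apply, ← Real.rpow_natCast, ← Real.rpow_mul (by positivity)]
  simp only [abs_pow]
  refine congrArg _ ?_
  have : q ≠ 0 := by linarith
  push_cast
  field_simp

theorem lp_unc : UncNorm (lp m hq) := by
  refine ⟨fun v h => funext fun j => ?_, fun σ v h => ?_⟩
  · have q0 : 0 < q := by linarith
    rw [lp_apply, Real.rpow_eq_zero (by positivity) (by positivity),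
      sum_eq_zero_iff_of_nonneg fun _ _ => by positivity] at h
    simpa using (Real.rpow_eq_zero (abs_nonneg _) (by positivity)).1 (h j (mem_univ _))
  · have : ∀ j, |σ j * v j| = |v j| := fun j => by rcases h j with k | k <;> simp [k]
    simp only [lp_apply, this]

theorem lp_convex : TwoConvex (lp m hq) := fun x y => by
  simp only [lp_sq]
  refine le_trans (le_of_eq ?_) (Real.Lp_add_le_of_nonneg univ (f := fun i => x i ^ 2)
    (g := fun i => y i ^ 2) hq (fun _ _ => sq_nonneg _) fun _ _ => sq_nonneg _)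
  refine congrArg (· ^ (1 / q)) (sum_congr rfl fun i _ => ?_)
  rw [Real.sq_sqrt (by positivity)]

theorem lp_conc : SquareConcave (1 / (2 * q)) (lp m hq) := fun n x => by
  have q0 : 0 < q := by linarith
  have h1 := Real.rpow_sum_le_const_mul_sum_rpow_of_nonneg univ (f := fun k => lp m hq (x k) ^ 2)
    hq fun _ _ => sq_nonneg _
  have h2 : ∑ k, (lp m hq (x k) ^ 2) ^ q ≤ ∑ i, (√(∑ k, x k i ^ 2) ^ 2) ^ q := by
    have e : ∀ k, (lp m hq (x k) ^ 2) ^ q = ∑ i, (x k i ^ 2) ^ q := fun k => by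
      rw [lp_sq, one_div, Real.rpow_inv_rpow (by positivity) q0.ne']
    simp only [e]
    rw [sum_comm]
    refine sum_le_sum fun i _ => ?_
    set S := ∑ k, x k i ^ 2 with hS
    have S0 : 0 ≤ S := by positivity
    have e2 : ∀ z : ℝ, 0 ≤ z → z ^ q = z * z ^ (q - 1) := fun z z0 => by
      rw [← Real.rpow_one_add' z0 (by linarith)]; exact congrArg _ (by ring)
    rw [Real.sq_sqrt S0, e2 S S0]
    refine le_trans (sum_le_sum fun k _ => ?_) (le_of_eq (sum_mul _ _ _).symm)
    rw [e2 _ (sq_nonneg _)]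
    exact mul_le_mul_of_nonneg_left (Real.rpow_le_rpow (sq_nonneg _)
      (single_le_sum (f := fun k => x k i ^ 2) (fun _ _ => sq_nonneg _) (mem_univ k))
      (by linarith)) (sq_nonneg _)
  have h3 := Real.rpow_le_rpow (by positivity)
    (h1.trans (mul_le_mul_of_nonneg_left h2 (by positivity))) (one_div_pos.2 q0).le
  rw [one_div, Real.rpow_rpow_inv (by positivity) q0.ne', Real.mul_rpow (by positivity)
    (by positivity), ← Real.rpow_mul (by positivity), card_univ, Fintype.card_fin] at h3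
  rw [lp_sq hq fun i => √(∑ k, x k i ^ 2), one_div q,
    show 1 - 2 * (1 / (2 * q)) = (q - 1) * q⁻¹ by field_simp]
  exact h3

theorem exW (m : ℕ) {θ : ℝ} (θ0 : 0 ≤ θ) (θ1 : θ ≤ 1 / 2) :
    ∃ W : Seminorm ℝ (Fin m → ℝ), UncNorm W ∧ TwoConvex W ∧ SquareConcave θ W ∧
      (∀ v, W v ≤ 1 → ∃ y : Fin m → ℝ, (∀ a, 0 ≤ y a) ∧ ∑ a, y a ≤ 1 ∧
        ∀ a (M : ℝ), 0 < M → v a ^ 2 * M ^ (2 * θ) ≤ 1 + M * y a) ∧
      ∀ z : Fin m → ℝ, (∀ a, 0 < z a) → ∑ a, z a ≤ 1 → W (fun a => z a ^ θ) ≤ 1 := by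
  rcases θ0.eq_or_lt with rfl | θp
  · refine ⟨normSeminorm ℝ _, sup_unc, sup_convex, conc_zero sup_unc,
      fun v hv => ⟨0, fun _ => le_rfl, by simp, fun a M _ => ?_⟩, fun z _ _ => ?_⟩
    · have : |v a| ≤ 1 := (norm_le_pi_norm v a).trans hv
      simpa using this
    · exact (pi_norm_le_iff_of_nonneg zero_le_one).2 fun a => by simp
  · have hq : 1 ≤ 1 / (2 * θ) := by rw [le_div_iff₀ (by positivity)]; linarith
    have e1 : 1 / (2 * (1 / (2 * θ))) = θ := by field_simp
    have e3 := lp_conc (m := m) hq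
    rw [e1] at e3
    refine ⟨lp m hq, lp_unc hq, lp_convex hq, e3,
      fun v hv => ⟨fun a => (v a ^ 2) ^ (1 / (2 * θ)), fun _ => by positivity, ?_,
        fun a M M0 => ?_⟩, fun z z0 z1 => ?_⟩
    · have k := pow_le_one₀ (n := 2) (apply_nonneg _ v) hv
      rw [lp_sq] at k
      by_contra n
      exact (Real.one_lt_rpow (not_le.1 n) (by positivity)).not_ge k
    · have e2 : v a ^ 2 * M ^ (2 * θ) = (M * (v a ^ 2) ^ (1 / (2 * θ))) ^ (2 * θ) := by
        rw [Real.mul_rpow M0.le (by positivity), one_div,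
          Real.rpow_inv_rpow (sq_nonneg _) (by positivity), mul_comm]
      rw [e2]
      have y0 : 0 ≤ M * (v a ^ 2) ^ (1 / (2 * θ)) := by positivity
      rcases le_total (M * (v a ^ 2) ^ (1 / (2 * θ))) 1 with k | k
      · exact (Real.rpow_le_one y0 k (by positivity)).trans (by linarith)
      · exact ((Real.rpow_le_rpow_of_exponent_le k (by linarith)).trans_eq
          (Real.rpow_one _)).trans (by linarith)
    · rw [lp_apply]
      refine Real.rpow_le_one (by positivity) (le_trans (le_of_eq ?_) z1) (by positivity)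
      refine sum_congr rfl fun a _ => ?_
      have := z0 a
      rw [abs_of_nonneg (by positivity), ← Real.rpow_mul this.le,
        show θ * (2 * (1 / (2 * θ))) = 1 by field_simp, Real.rpow_one]

end Pool.Agent.MP_122bd4_an.Zon
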