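import Pool.Agent.MP_122bd4_an.Unc.Defs

/-! Separation: one ellipsoid that works for all Hilbert norms below the target norm. -/

open Finset
open scoped Matrix

namespace Pool.Agent.MP_122bd4_an.Zon

variable {m : ℕ}

theorem dot_le (z : Fin m → ℝ) : z ⬝ᵥ z ≤ m * ‖z‖ ^ 2 := by
  refine (sum_le_card_nsmul univ _ (‖z‖ ^ 2) fun i _ => ?_).trans_eq (by simp)
  rw [← sq, ← sq_abs]
  exact pow_le_pow_left₀ (abs_nonneg _) (norm_le_pi_norm z i) 2

theorem dot_nonneg (z : Fin m → ℝ) : 0 ≤ z ⬝ᵥ z := sum_nonneg fun _ _ => mul_self_nonneg _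

theorem below (hm : 0 < m) {Y : Seminorm ℝ (Fin m → ℝ)} (hY : ∀ v, Y v = 0 → v = 0) :
    ∃ δ : ℝ, 0 < δ ∧ ∀ v, δ * (v ⬝ᵥ v) ≤ Y v ^ 2 := by
  have : Nonempty (Fin m) := ⟨⟨0, hm⟩⟩
  have cY : Continuous Y := continuousOn_univ.1 (Y.convexOn.continuousOn isOpen_univ)
  obtain ⟨x, hx, mx⟩ := (isCompact_sphere (0 : Fin m → ℝ) 1).exists_isMinOn
    ⟨fun _ => 1, by simp⟩ cY.continuousOn
  have x0 : 0 < Y x := (apply_nonneg Y x).lt_of_ne' fun k => by simp [hY x k] at hx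
  have m0 : (0 : ℝ) < m := by exact_mod_cast hm
  refine ⟨Y x ^ 2 / m, by positivity, fun v => ?_⟩
  by_cases k : v = 0
  · simp [k]
  have n0 := norm_pos_iff.2 k
  have a : Y x ≤ Y (‖v‖⁻¹ • v) := mx (by simp [norm_smul, n0.ne'])
  rw [map_smul_eq_mul, norm_inv, norm_norm, le_inv_mul_iff₀ n0] at a
  calc Y x ^ 2 / m * (v ⬝ᵥ v) ≤ Y x ^ 2 / m * (m * ‖v‖ ^ 2) := by gcongr; exact dot_le v
    _ = (‖v‖ * Y x) ^ 2 := by field_simp
    _ ≤ _ := by gcongr

/-- the quadratic form of an array -/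
def qf (S : Fin m → Fin m → ℝ) (z : Fin m → ℝ) : ℝ := ∑ i, ∑ j, S i j * (z i * z j)

/-- the rank one array -/
def out (y : Fin m → ℝ) : Fin m → Fin m → ℝ := fun i j => y i * y j

theorem qf_out (y z : Fin m → ℝ) : qf (out y) z = (y ⬝ᵥ z) ^ 2 := by
  rw [sq, dotProduct, sum_mul_sum]
  exact sum_congr rfl fun i _ => sum_congr rfl fun j _ => by simp only [out]; ring

theorem qf_add (S T : Fin m → Fin m → ℝ) (z : Fin m → ℝ) : qf (S + T) z = qf S z + qf T z := by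
  simp only [qf, Pi.add_apply, add_mul, sum_add_distrib]

theorem qf_smul (a : ℝ) (S : Fin m → Fin m → ℝ) (z : Fin m → ℝ) : qf (a • S) z = a * qf S z := by
  simp only [qf, Pi.smul_apply, smul_eq_mul, mul_sum, mul_assoc]

theorem qf_sum {ι : Type} [Fintype ι] (y : ι → Fin m → ℝ) (z : Fin m → ℝ) :
    qf (∑ k, out (y k)) z = ∑ k, (y k ⬝ᵥ z) ^ 2 := by
  simp only [← qf_out, qf, Finset.sum_apply, sum_mul]
  exact (sum_congr rfl fun i _ => sum_comm).trans sum_comm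

theorem qf_le (S : Fin m → Fin m → ℝ) (z : Fin m → ℝ) : |qf S z| ≤ ‖S‖ * (m * (z ⬝ᵥ z)) := by
  have h1 : |qf S z| ≤ ‖S‖ * (∑ i, |z i|) ^ 2 := by
    rw [sq, sum_mul_sum, mul_sum]
    refine (abs_sum_le_sum_abs _ _).trans (sum_le_sum fun i _ => ?_)
    rw [mul_sum]
    refine (abs_sum_le_sum_abs _ _).trans (sum_le_sum fun j _ => ?_)
    rw [abs_mul, abs_mul]
    exact mul_le_mul_of_nonneg_right ((norm_le_pi_norm (S i) j).trans (norm_le_pi_norm S i))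
      (by positivity)
  refine h1.trans (mul_le_mul_of_nonneg_left (sq_sum_le_card_mul_sum_sq.trans_eq ?_)
    (norm_nonneg _))
  simp [dotProduct, sq]

theorem out_smul (a : ℝ) (y : Fin m → ℝ) : out (a • y) = a ^ 2 • out y := by
  ext i j; simp only [out, Pi.smul_apply, smul_eq_mul]; ring

theorem sep (hm : 0 < m) {X Y : Seminorm ℝ (Fin m → ℝ)} (hY : ∀ v, Y v = 0 → v = 0) {c : ℝ}
    (c0 : 0 < c) (hc : ∀ Q : Matrix (Fin m) (Fin m) ℝ, Q.PosDef → (∀ y, hn Q y ≤ Y y) →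
      ∃ e : Fin m → Fin m → ℝ, (∀ v, X v ≤ 1 → ∀ z, (v ⬝ᵥ z) ^ 2 ≤ ∑ a, (e a ⬝ᵥ z) ^ 2) ∧
        ∑ a, hn Q (e a) ^ 2 < c ^ 2 / 2) :
    ∃ (J : ℕ) (y : Fin J → Fin m → ℝ) (η : ℝ), 0 < η ∧ ∑ j, Y (y j) ^ 2 ≤ c ^ 2 ∧
      ∀ v, X v ≤ 1 → ∀ z, (v ⬝ᵥ z) ^ 2 + η * (z ⬝ᵥ z) ≤ ∑ j, (y j ⬝ᵥ z) ^ 2 := by
  by_contra no
  obtain ⟨δ, δ0, hδ⟩ := below hm hY
  have m0 : (0 : ℝ) < m := by exact_mod_cast hm
  let s : Set (Fin m → Fin m → ℝ) :=
    {S | ∃ η : ℝ, 0 < η ∧ ∀ v, X v ≤ 1 → ∀ z, (v ⬝ᵥ z) ^ 2 + η * (z ⬝ᵥ z) ≤ qf S z}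
  let t : Set (Fin m → Fin m → ℝ) := {S | ∃ (ι : Type) (_ : Fintype ι) (y : ι → Fin m → ℝ),
    ∑ j, Y (y j) ^ 2 ≤ c ^ 2 ∧ S = ∑ j, out (y j)}
  have s1 : Convex ℝ s := fun S ⟨η, η0, h⟩ T ⟨ζ, ζ0, k⟩ a b a0 b0 ab =>
    ⟨min η ζ, lt_min η0 ζ0, fun v hv z => by
      rw [qf_add, qf_smul, qf_smul]
      have d := dot_nonneg z
      have e1 := mul_le_mul_of_nonneg_left ((add_le_add_right (mul_le_mul_of_nonneg_right
        (min_le_left η ζ) d) _).trans (h v hv z)) a0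
      have e2 := mul_le_mul_of_nonneg_left ((add_le_add_right (mul_le_mul_of_nonneg_right
        (min_le_right η ζ) d) _).trans (k v hv z)) b0
      calc _ = (a + b) * ((v ⬝ᵥ z) ^ 2 + min η ζ * (z ⬝ᵥ z)) := by rw [ab, one_mul]
        _ ≤ _ := by linarith⟩
  have s2 : IsOpen s := Metric.isOpen_iff.2 fun S ⟨η, η0, h⟩ =>
    ⟨η / (2 * m), by positivity, fun T hT => ⟨η / 2, by positivity, fun v hv z => by
      have e : T = S + (T - S) := by abel
      have k := (abs_le.1 (qf_le (T - S) z)).1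
      have k2 : ‖T - S‖ * (m * (z ⬝ᵥ z)) ≤ η / (2 * m) * (m * (z ⬝ᵥ z)) :=
        mul_le_mul_of_nonneg_right (mem_ball_iff_norm.1 hT).le
          (mul_nonneg m0.le (dot_nonneg z))
      have k3 : η / (2 * m) * (m * (z ⬝ᵥ z)) = η / 2 * (z ⬝ᵥ z) := by field_simp
      rw [e, qf_add]
      linarith [h v hv z]⟩⟩
  have t1 : Convex ℝ t := by
    rintro _ ⟨ι, _, y, hy, rfl⟩ _ ⟨κ, _, w, hw, rfl⟩ a b a0 b0 ab
    refine ⟨ι ⊕ κ, inferInstance, Sum.elim (fun j => √a • y j) fun j => √b • w j, ?_, ?_⟩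
    · simp only [Fintype.sum_sum_type, Sum.elim_inl, Sum.elim_inr, map_smul_eq_mul, mul_pow,
        Real.norm_eq_abs, sq_abs, Real.sq_sqrt a0, Real.sq_sqrt b0, ← mul_sum]
      calc _ ≤ a * c ^ 2 + b * c ^ 2 := by gcongr
        _ = _ := by rw [← add_mul, ab, one_mul]
    · simp only [Fintype.sum_sum_type, Sum.elim_inl, Sum.elim_inr, out_smul, Real.sq_sqrt a0,
        Real.sq_sqrt b0, smul_sum]
  have dj : Disjoint s t := Set.disjoint_left.2 <| by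
    rintro _ ⟨η, η0, h⟩ ⟨ι, _, y, hy, rfl⟩
    refine no ⟨Fintype.card ι, fun j => y ((Fintype.equivFin ι).symm j), η, η0, ?_,
      fun v hv z => ?_⟩
    · rw [(Fintype.equivFin ι).symm.sum_comp fun j => Y (y j) ^ 2]; exact hy
    · rw [(Fintype.equivFin ι).symm.sum_comp fun j => (y j ⬝ᵥ z) ^ 2, ← qf_sum]; exact h v hv z
  obtain ⟨f, u, f1, f2⟩ := geometric_hahn_banach_open s1 s2 t1 dj
  let M : Matrix (Fin m) (Fin m) ℝ := Matrix.of fun i j => -f (Pi.single i (Pi.single j 1))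
  have fM : ∀ z, z ⬝ᵥ M *ᵥ z = -f (out z) := fun z => by
    have e : out z = ∑ i, ∑ j, (z i * z j) •
        (Pi.single i (Pi.single j 1) : Fin m → Fin m → ℝ) := by
      ext i j
      simp [out, Finset.sum_apply, Pi.single_apply, ite_apply]
    rw [e]
    simp only [map_sum, map_smul, smul_eq_mul, dotProduct, Matrix.mulVec, M, Matrix.of_apply,
      mul_sum, ← sum_neg_distrib]
    exact sum_congr rfl fun i _ => sum_congr rfl fun j _ => by ring
  have mem : ∀ e : Fin m → Fin m → ℝ,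
      (∀ v, X v ≤ 1 → ∀ z, (v ⬝ᵥ z) ^ 2 ≤ ∑ a, (e a ⬝ᵥ z) ^ 2) → ∀ η : ℝ, 0 < η →
      ∀ (r : ℝ) (x : Fin m → ℝ), 0 ≤ r → ∑ a, f (out (e a)) +
        η * ∑ a, f (out (Pi.single a 1)) + r * f (out x) < u := fun e he η η0 r x r0 => by
    have := f1 (∑ a, out (e a) + η • ∑ a, out (Pi.single a 1) + r • out x) ⟨η, η0, fun v hv z => by
      rw [qf_add, qf_add, qf_smul, qf_smul, qf_sum, qf_sum, qf_out]
      have : ∑ a, ((Pi.single a 1 : Fin m → ℝ) ⬝ᵥ z) ^ 2 = z ⬝ᵥ z := by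
        simp only [single_dotProduct, one_mul, sq]; rfl
      rw [this]
      linarith [he v hv z, mul_nonneg r0 (sq_nonneg (x ⬝ᵥ z))]⟩
    simpa only [map_add, map_smul, map_sum, smul_eq_mul] using this
  have sq1 : ∀ (Q : Matrix (Fin m) (Fin m) ℝ) (y : Fin m → ℝ), y ⬝ᵥ Q *ᵥ y ≤ Y y ^ 2 →
      hn Q y ≤ Y y := fun Q y h => Real.sqrt_le_iff.2 ⟨apply_nonneg Y y, h⟩
  obtain ⟨e0, he0, -⟩ := hc (δ • 1) (Matrix.PosDef.one.smul δ0) fun y => sq1 _ _ (by
    rw [Matrix.smul_mulVec, Matrix.one_mulVec, dotProduct_smul]; exact hδ y)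
  have q0 : ∀ x, f (out x) ≤ 0 := fun x => by
    by_contra k
    have k := not_le.1 k
    set w := ∑ a, f (out (e0 a)) + 1 * ∑ a, f (out (Pi.single a 1)) with hw
    have := mem e0 he0 1 one_pos (|u - w| / f (out x)) x (by positivity)
    rw [div_mul_cancel₀ _ k.ne'] at this
    linarith [le_abs_self (u - w)]
  have q1 : ∀ y, c ^ 2 * -f (out y) ≤ -u * Y y ^ 2 := fun y => by
    by_cases k : y = 0
    · have : out (0 : Fin m → ℝ) = 0 := by ext i j; simp [out]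
      simp [k, this]
    have y0 : 0 < Y y := (apply_nonneg Y y).lt_of_ne' fun z => k (hY y z)
    have := f2 _ ⟨Unit, inferInstance, fun _ => (c / Y y) • y, by
      rw [Fintype.sum_unique, map_smul_eq_mul, Real.norm_of_nonneg (by positivity),
        div_mul_cancel₀ _ y0.ne'], rfl⟩
    rw [Fintype.sum_unique, out_smul, map_smul, smul_eq_mul, div_pow, div_mul_eq_mul_div,
      le_div_iff₀ (by positivity)] at this
    linarith
  have U0 : 0 < -u := by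
    by_contra k
    have z : ∀ y, f (out y) = 0 := fun y => le_antisymm (q0 y) (by
      have := (q1 y).trans (mul_nonpos_of_nonpos_of_nonneg (not_lt.1 k) (sq_nonneg _))
      have := nonpos_of_mul_nonpos_right this (by positivity)
      linarith)
    have h1 := mem e0 he0 1 one_pos 0 0 le_rfl
    have h2 := f2 _ ⟨Empty, inferInstance, Empty.elim, by simp; positivity, rfl⟩
    simp [z] at h1 h2
    linarith
  let Q : Matrix (Fin m) (Fin m) ℝ := (c ^ 2 / (4 * -u)) • (M + Mᵀ) + (δ / 2) • 1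
  have eQ : ∀ y, y ⬝ᵥ Q *ᵥ y = c ^ 2 / (2 * -u) * -f (out y) + δ / 2 * (y ⬝ᵥ y) := fun y => by
    have : y ⬝ᵥ Mᵀ *ᵥ y = y ⬝ᵥ M *ᵥ y := by
      rw [Matrix.mulVec_transpose, dotProduct_comm, Matrix.dotProduct_mulVec]
    simp only [Q, Matrix.add_mulVec, Matrix.smul_mulVec, Matrix.one_mulVec, dotProduct_add,
      dotProduct_smul, smul_eq_mul, this, fM]
    field_simp
    ring
  have q2 : ∀ y, 0 ≤ c ^ 2 / (2 * -u) * -f (out y) := fun y =>
    mul_nonneg (by positivity) (neg_nonneg.2 (q0 y))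
  have pQ : Q.PosDef := Matrix.PosDef.of_dotProduct_mulVec_pos (by
    ext i j
    simp only [Q, Matrix.conjTranspose_apply, star_trivial, Matrix.add_apply, Matrix.smul_apply,
      Matrix.transpose_apply, Matrix.one_apply, eq_comm (a := j), add_comm (M i j)]) fun x hx => by
    rw [star_trivial, eQ]
    have : 0 < x ⬝ᵥ x := (dot_nonneg x).lt_of_ne' fun k => hx (dotProduct_self_eq_zero.1 k)
    have := q2 x
    positivity
  obtain ⟨e, he, lt⟩ := hc Q pQ fun y => sq1 _ _ (by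
    have : c ^ 2 / (2 * -u) * -f (out y) ≤ Y y ^ 2 / 2 := by
      rw [div_mul_eq_mul_div, div_le_iff₀ (by positivity)]
      linarith [q1 y]
    rw [eQ]
    linarith [hδ y])
  have big : -u ≤ ∑ a, -f (out (e a)) := by
    rw [sum_neg_distrib]
    refine le_of_forall_pos_le_add fun ε ε0 => ?_
    set w := ∑ a, f (out (Pi.single a 1 : Fin m → ℝ)) with hw
    have := mem e he (ε / (|w| + 1)) (by positivity) 0 0 le_rfl
    have k : ε / (|w| + 1) * -w ≤ ε := by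
      rw [div_mul_eq_mul_div, div_le_iff₀ (by positivity)]
      exact mul_le_mul_of_nonneg_left (by linarith [neg_abs_le w]) ε0.le
    linarith
  have fin : c ^ 2 / (2 * -u) * ∑ a, -f (out (e a)) ≤ ∑ a, hn Q (e a) ^ 2 := by
    rw [mul_sum]
    refine sum_le_sum fun a _ => ?_
    have := mul_nonneg (half_pos δ0).le (dot_nonneg (e a))
    rw [hn, Real.sq_sqrt (by rw [eQ]; linarith [q2 (e a)]), eQ]
    linarith
  have := (mul_le_mul_of_nonneg_left big (by positivity : 0 ≤ c ^ 2 / (2 * -u))).trans fin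
  have un : u ≠ 0 := by linarith
  rw [show c ^ 2 / (2 * -u) * -u = c ^ 2 / 2 by field_simp] at this
  linarith

end Pool.Agent.MP_122bd4_an.Zon
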