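import Pool.Agent.MP_122bd4_an.Zon.Lin

/-! Rounding: the Euclidean balancing constant is bounded by the sum of the squared widths. -/

open Finset Module
open scoped RealInnerProductSpace

namespace Pool.Agent.MP_122bd4_an.Zon

/-- Walk along `h` until a free coordinate reaches the boundary. -/
theorem hit {n : ℕ} (x h : Fin n → ℝ) (hx : ∀ l, |x l| ≤ 1) (hh : ∀ l, ¬ |x l| < 1 → h l = 0)
    (h0 : ∃ l, h l ≠ 0) :
    ∃ t : ℝ, 0 ≤ t ∧ (∀ l, |x l + t * h l| ≤ 1) ∧ ∃ l, |x l| < 1 ∧ ¬ |x l + t * h l| < 1 := by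
  obtain ⟨l0, hl0⟩ := h0
  let S : Set ℝ := Set.Icc 0 (2 / |h l0|) ∩ ⋂ l, {t | |x l + t * h l| ≤ 1}
  have p0 : 0 < |h l0| := abs_pos.2 hl0
  have mS : ∀ t, t ∈ S ↔ 0 ≤ t ∧ ∀ l, |x l + t * h l| ≤ 1 := fun t => by
    simp only [S, Set.mem_inter_iff, Set.mem_Icc, Set.mem_iInter, Set.mem_ofPred_eq]
    refine ⟨fun k => ⟨k.1.1, k.2⟩, fun k => ⟨⟨k.1, ?_⟩, k.2⟩⟩
    rw [le_div_iff₀ p0]
    have a := abs_sub (x l0 + t * h l0) (x l0)
    rw [add_sub_cancel_left, abs_mul, abs_of_nonneg k.1] at a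
    linarith [k.2 l0, hx l0]
  have cS : IsCompact S := isCompact_Icc.inter_right
    (isClosed_iInter fun l => isClosed_le (by fun_prop) continuous_const)
  obtain ⟨t, ht, mt⟩ := cS.exists_isMaxOn ⟨0, (mS 0).2 ⟨le_rfl, by simpa using hx⟩⟩
    (f := id) continuousOn_id
  obtain ⟨t0, t1⟩ := (mS t).1 ht
  refine ⟨t, t0, t1, ?_⟩
  by_contra k
  push Not at k
  have key : ∀ l, ∀ᶠ τ : ℝ in nhds t, |x l + τ * h l| ≤ 1 := fun l => by
    by_cases a : |x l| < 1
    · have c : Continuous fun τ : ℝ => |x l + τ * h l| := by fun_prop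
      exact (c.continuousAt.eventually_lt continuousAt_const (k l a)).mono fun _ => le_of_lt
    · simp [hh l a, hx l]
  obtain ⟨τ, h1, h2⟩ := (((Filter.eventually_all.2 key).filter_mono nhdsWithin_le_nhds).and
    (self_mem_nhdsWithin (s := Set.Ioi t) (a := t))).exists
  have h3 : t < τ := h2
  have : τ ≤ t := mt ((mS τ).2 ⟨t0.trans h3.le, h1⟩)
  linarith

variable {m n : ℕ}

/-- One direction: supported on the free coordinates, with small image. -/
theorem dir (v : Fin n → Fin m → ℝ) (b : ℕ → ℝ) (b0 : ∀ k, 0 ≤ b k)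
    (hv : ∀ k l, ∑ a with k ≤ a.1, v l a ^ 2 ≤ b k) (x : Fin n → ℝ) {q : ℕ}
    (hq : #{l | |x l| < 1} = q + 1) :
    ∃ h : Fin n → ℝ, (∀ l, ¬ |x l| < 1 → h l = 0) ∧ ∑ l, h l ^ 2 = 1 ∧
      ∑ a, (∑ l, h l * v l a) ^ 2 ≤ 2 * b ((q + 1) / 2) := by
  classical
  set k := (q + 1) / 2 with hk
  let al : Fin n → ℝ := fun l => if |x l| < 1 then 1 else 0
  let row : Fin m → EuclideanSpace ℝ (Fin n) := fun a => WithLp.toLp 2 fun l => al l * v l a
  let c : {l // ¬ |x l| < 1} ⊕ Fin k → EuclideanSpace ℝ (Fin n) := Sum.elim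
    (fun l => EuclideanSpace.single l.1 1) fun j => if h : j.1 < m then row ⟨j, h⟩ else 0
  have cd : Fintype.card {l // ¬ |x l| < 1} + (q + 1) = n := by
    rw [Fintype.card_subtype, ← hq, add_comm, card_filter_add_card_filter_not]; simp
  obtain ⟨z, z1, z2, z3⟩ := avg c (fun a : Fin m => if k ≤ a.1 then (1 : ℝ) else 0)
    (fun a => by split_ifs <;> norm_num) row (g := q + 1 - k) (by omega)
    (by rw [Fintype.card_sum, Fintype.card_fin, finrank_euclideanSpace, Fintype.card_fin]; omega)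
  have h1 : ∀ l, ¬ |x l| < 1 → z l = 0 := fun l a => by
    simpa [c, EuclideanSpace.inner_single_left] using z2 (Sum.inl ⟨l, a⟩)
  have h2 : ∀ a, ⟪row a, z⟫ = ∑ l, z l * v l a := fun a => by
    simp only [row, PiLp.inner_apply, RCLike.inner_apply, conj_trivial]
    refine sum_congr rfl fun l _ => ?_
    by_cases e : |x l| < 1
    · simp [al, e]
    · simp [h1 l e]
  refine ⟨z, h1, ?_, ?_⟩
  · have := EuclideanSpace.real_norm_sq_eq z
    rw [z1] at this
    rw [← this]; ring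
  · have e1 : ∑ a, (∑ l, z l * v l a) ^ 2 =
        ∑ a : Fin m, (if k ≤ a.1 then (1 : ℝ) else 0) * ⟪row a, z⟫ ^ 2 :=
      sum_congr rfl fun a _ => by
        by_cases e : k ≤ a.1
        · rw [if_pos e, h2, one_mul]
        · have := z2 (Sum.inr ⟨a, by omega⟩)
          simp only [c, Sum.elim_inr, a.2, dif_pos, Fin.eta] at this
          rw [← h2, this]; simp
    have e2 : ∑ a : Fin m, (if k ≤ a.1 then (1 : ℝ) else 0) * ‖row a‖ ^ 2 ≤ (q + 1) * b k := by
      have e3 : ∑ a : Fin m, (if k ≤ a.1 then (1 : ℝ) else 0) * ‖row a‖ ^ 2 =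
          ∑ l with |x l| < 1, ∑ a with k ≤ a.1, v l a ^ 2 := by
        simp only [EuclideanSpace.real_norm_sq_eq, row, mul_sum, sum_filter]
        rw [sum_comm]
        refine sum_congr rfl fun l _ => ?_
        by_cases e : |x l| < 1 <;> simp [al, e]
      rw [e3]
      refine (sum_le_card_nsmul _ _ _ fun l _ => hv k l).trans ?_
      rw [hq, nsmul_eq_mul]; push_cast; rfl
    rw [e1]
    set Q := ∑ a : Fin m, (if k ≤ a.1 then (1 : ℝ) else 0) * ⟪row a, z⟫ ^ 2
    have g1 : (q + 1 : ℝ) ≤ 2 * ((q + 1 - k : ℕ) : ℝ) := by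
      exact_mod_cast (by omega : q + 1 ≤ 2 * (q + 1 - k))
    have g0 : (0 : ℝ) < ((q + 1 - k : ℕ) : ℝ) := by exact_mod_cast (by omega : 0 < q + 1 - k)
    have := b0 k
    refine le_of_mul_le_mul_left ((z3.trans e2).trans ?_) g0
    nlinarith

theorem energy (x : Fin n → ℝ) (hx : ∀ l, |x l| ≤ 1) :
    ∑ l, (1 - x l ^ 2) ≤ (#{l | |x l| < 1} : ℝ) := by
  rw [card_filter]
  push_cast
  refine sum_le_sum fun l _ => ?_
  split_ifs with k
  · nlinarith [sq_nonneg (x l)]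
  · rw [← sq_abs, le_antisymm (hx l) (not_lt.1 k)]; norm_num

theorem stages (v : Fin n → Fin m → ℝ) (b : ℕ → ℝ) (b0 : ∀ k, 0 ≤ b k) (ba : Antitone b)
    (hv : ∀ k l, ∑ a with k ≤ a.1, v l a ^ 2 ≤ b k) (q : ℕ) :
    ∀ x : Fin n → ℝ, (∀ l, |x l| ≤ 1) → #{l | |x l| < 1} ≤ q → ∃ ε : Fin n → ℝ,
      (∀ l, ε l = 1 ∨ ε l = -1) ∧ ∑ a, (∑ l, ε l * v l a) ^ 2 ≤ ∑ a, (∑ l, x l * v l a) ^ 2 +
        ∑ j ∈ range q, 2 * b ((j + 1) / 2) - 2 * b (q / 2) * (q - ∑ l, (1 - x l ^ 2)) := by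
  induction q with
  | zero =>
    intro x hx hq
    have k : ∀ l, |x l| = 1 := fun l => le_antisymm (hx l) (not_lt.1 fun a => by
      have : l ∈ ({l | |x l| < 1} : Finset (Fin n)) := by simpa using a
      rw [card_eq_zero.1 (Nat.le_zero.1 hq)] at this
      simp at this)
    refine ⟨x, fun l => eq_or_eq_neg_of_abs_eq (k l), ?_⟩
    have : ∑ l, (1 - x l ^ 2) = 0 := sum_eq_zero fun l _ => by rw [← sq_abs, k l]; ring
    simp [this]
  | succ q ih =>
    intro x hx hq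
    have step : ∃ y : Fin n → ℝ, (∀ l, |y l| ≤ 1) ∧ #{l | |y l| < 1} ≤ q ∧
        ∑ a, (∑ l, y l * v l a) ^ 2 + 2 * b ((q + 1) / 2) * ∑ l, (1 - y l ^ 2) ≤
          ∑ a, (∑ l, x l * v l a) ^ 2 + 2 * b ((q + 1) / 2) * ∑ l, (1 - x l ^ 2) := by
      rcases hq.lt_or_eq with k | k
      · exact ⟨x, hx, by omega, le_rfl⟩
      obtain ⟨h, h1, h2, h3⟩ := dir v b b0 hv x k
      set c := 2 * b ((q + 1) / 2)
      have main : ∀ h : Fin n → ℝ, (∀ l, ¬ |x l| < 1 → h l = 0) → ∑ l, h l ^ 2 = 1 →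
          ∑ a, (∑ l, h l * v l a) ^ 2 ≤ c →
          ∑ a, (∑ l, x l * v l a) * (∑ l, h l * v l a) - c * ∑ l, x l * h l ≤ 0 →
          ∃ y : Fin n → ℝ, (∀ l, |y l| ≤ 1) ∧ #{l | |y l| < 1} ≤ q ∧
            ∑ a, (∑ l, y l * v l a) ^ 2 + c * ∑ l, (1 - y l ^ 2) ≤
              ∑ a, (∑ l, x l * v l a) ^ 2 + c * ∑ l, (1 - x l ^ 2) := fun h h1 h2 h3 h4 => by
        obtain ⟨t, t0, t1, l0, t2, t3⟩ := hit x h hx h1 (by
          by_contra n0
          push Not at n0
          simp [n0] at h2)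
        refine ⟨fun l => x l + t * h l, t1, ?_, ?_⟩
        · refine Nat.le_of_lt_succ (lt_of_lt_of_eq (card_lt_card ?_) k)
          refine (ssubset_iff_of_subset fun l a => ?_).2 ⟨l0, by simpa using t2, by simpa using t3⟩
          simp only [mem_filter, mem_univ, true_and] at a ⊢
          by_contra e
          rw [h1 l e, mul_zero, add_zero] at a
          exact e a
        · have e1 : ∑ a, (∑ l, (x l + t * h l) * v l a) ^ 2 = ∑ a, (∑ l, x l * v l a) ^ 2 +
              2 * t * ∑ a, (∑ l, x l * v l a) * (∑ l, h l * v l a) +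
              t ^ 2 * ∑ a, (∑ l, h l * v l a) ^ 2 := by
            rw [mul_sum, mul_sum, ← sum_add_distrib, ← sum_add_distrib]
            refine sum_congr rfl fun a _ => ?_
            have : ∑ l, (x l + t * h l) * v l a = ∑ l, x l * v l a + t * ∑ l, h l * v l a := by
              rw [mul_sum, ← sum_add_distrib]; exact sum_congr rfl fun l _ => by ring
            rw [this]; ring
          have e2 : ∑ l, (1 - (x l + t * h l) ^ 2) = ∑ l, (1 - x l ^ 2) -
              2 * t * ∑ l, x l * h l - t ^ 2 * ∑ l, h l ^ 2 := by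
            rw [mul_sum, mul_sum, ← sum_sub_distrib, ← sum_sub_distrib]
            exact sum_congr rfl fun l _ => by ring
          rw [e1, e2, h2]
          nlinarith [mul_nonneg t0 (neg_nonneg.2 h4), mul_nonneg (sq_nonneg t) (sub_nonneg.2 h3)]
      rcases le_total (∑ a, (∑ l, x l * v l a) * (∑ l, h l * v l a) - c * ∑ l, x l * h l) 0
        with s | s
      · exact main h h1 h2 h3 s
      · refine main (fun l => -h l) (fun l a => by simp [h1 l a]) (by simpa using h2)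
          (by simpa using h3) ?_
        simp only [neg_mul, sum_neg_distrib, mul_neg]
        linarith
    obtain ⟨y, y1, y2, y3⟩ := step
    obtain ⟨ε, e1, e2⟩ := ih y y1 y2
    refine ⟨ε, e1, e2.trans ?_⟩
    have a1 : b ((q + 1) / 2) ≤ b (q / 2) := ba (by omega)
    have a2 : ∑ l, (1 - y l ^ 2) ≤ (q : ℝ) := (energy y y1).trans (by exact_mod_cast y2)
    rw [sum_range_succ]
    push_cast
    nlinarith [mul_nonneg (sub_nonneg.2 a1) (sub_nonneg.2 a2)]

theorem halves (b : ℕ → ℝ) (n : ℕ) :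
    ∑ j ∈ range (2 * n), b ((j + 1) / 2) + b 0 = 2 * ∑ k ∈ range n, b k + b n := by
  induction n with
  | zero => simp
  | succ n ih =>
    rw [show 2 * (n + 1) = 2 * n + 1 + 1 by ring, sum_range_succ, sum_range_succ, sum_range_succ,
      show (2 * n + 1) / 2 = n by omega, show (2 * n + 1 + 1) / 2 = n + 1 by omega]
    linarith

/-- If the tails of all vectors are bounded by `b`, some signed sum has squared length at most
four times the sum of `b`. -/
theorem widths (v : Fin n → Fin m → ℝ) (b : ℕ → ℝ) (b0 : ∀ k, 0 ≤ b k) (ba : Antitone b)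
    (bm : ∀ k, m ≤ k → b k = 0) (hv : ∀ k l, ∑ a with k ≤ a.1, v l a ^ 2 ≤ b k) :
    ∃ ε : Fin n → ℝ, (∀ l, ε l = 1 ∨ ε l = -1) ∧
      ∑ a, (∑ l, ε l * v l a) ^ 2 ≤ 4 * ∑ k ∈ range m, b k := by
  obtain ⟨ε, e1, e2⟩ := stages v b b0 ba hv n 0 (by simp) (by simp)
  refine ⟨ε, e1, e2.trans ?_⟩
  have h1 := halves b (m + n)
  have h2 : ∑ j ∈ range n, b ((j + 1) / 2) ≤ ∑ j ∈ range (2 * (m + n)), b ((j + 1) / 2) :=
    sum_le_sum_of_subset_of_nonneg (range_mono (by omega)) fun _ _ _ => b0 _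
  have h3 : ∑ k ∈ range (m + n), b k = ∑ k ∈ range m, b k := by
    rw [sum_range_add, sum_eq_zero (s := range n) fun k _ => bm _ (by omega), add_zero]
  rw [← mul_sum]
  simp
  linarith [bm (m + n) (by omega), b0 0]

end Pool.Agent.MP_122bd4_an.Zon
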