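import Pool.Agent.MP_122bd4_an.Zon.Upper
import Pool.Agent.MP_122bd4_an.Zon.Wid
import Pool.Agent.MP_122bd4_an.Zon.Lp

/-! The `ℓ_p` ball and a weighted Euclidean norm: the loss `(log m) ^ (1 / 2 - 1 / p)` is needed. -/

open Finset Module
open scoped RealInnerProductSpace Matrix

namespace Pool.Agent.MP_122bd4_an.Zon

variable {m : ℕ}

theorem diag_hn (d v : Fin m → ℝ) :
    hn (Matrix.diagonal fun j => d j ^ 2) v = √(∑ j, (v j * d j) ^ 2) := by
  refine congrArg _ (sum_congr rfl fun j _ => ?_)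
  rw [Matrix.mulVec_diagonal]; ring

theorem har_fin : ∑ j : Fin m, 1 / (j + 1 : ℝ) = har m :=
  Fin.sum_univ_eq_sum_range (fun k => 1 / (k + 1 : ℝ)) m

theorem ex_upper {θ : ℝ} {W : (Fin m → ℝ) → ℝ}
    (hW : ∀ v, W v ≤ 1 → ∃ y : Fin m → ℝ, (∀ a, 0 ≤ y a) ∧ ∑ a, y a ≤ 1 ∧
      ∀ a (M : ℝ), 0 < M → v a ^ 2 * M ^ (2 * θ) ≤ 1 + M * y a) :
    bal W (hn (Matrix.diagonal fun j : Fin m => ((j + 1 : ℝ) ^ (θ - 1)) ^ 2)) ≤
      ENNReal.ofReal √(8 * har m) :=
  bal_le fun n v hv => by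
    obtain ⟨ε, e1, e2⟩ := widths (fun l (a : Fin m) => v l a * (a + 1 : ℝ) ^ (θ - 1))
      (fun k => ∑ a : Fin m with k ≤ a.1, (1 / (a + 1 : ℝ)) ^ 2 +
        if k < m then 1 / (k + 1 : ℝ) else 0)
      (fun k => add_nonneg (sum_nonneg fun _ _ => sq_nonneg _) (by split_ifs <;> positivity))
      (fun j k h => add_le_add (sum_le_sum_of_subset_of_nonneg
        (fun a ha => by simp only [mem_filter, mem_univ, true_and] at ha ⊢; omega)
        fun _ _ _ => sq_nonneg _) (by
          by_cases e : k < m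
          · rw [if_pos e, if_pos (h.trans_lt e)]
            have : (j : ℝ) ≤ k := by exact_mod_cast h
            gcongr
          · rw [if_neg e]; split_ifs <;> positivity))
      (fun k h => by
        rw [if_neg (not_lt.2 h), add_zero]
        exact sum_eq_zero fun a ha => by
          simp only [mem_filter, mem_univ, true_and] at ha; omega)
      fun k l => by
        obtain ⟨y, y0, y1, y2⟩ := hW _ (hv l)
        have e : ∀ a : Fin m, k ≤ a.1 → (v l a * (a + 1 : ℝ) ^ (θ - 1)) ^ 2 ≤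
            (1 / (a + 1 : ℝ)) ^ 2 + 1 / (k + 1 : ℝ) * y a := fun a ha => by
          have M0 : (0 : ℝ) < a + 1 := by positivity
          have e1 : ((a + 1 : ℝ) ^ (θ - 1)) ^ 2 = (a + 1 : ℝ) ^ (2 * θ) * (1 / (a + 1 : ℝ)) ^ 2 := by
            rw [Real.rpow_sub_one M0.ne', div_pow, ← Real.rpow_natCast ((a + 1 : ℝ) ^ θ),
              ← Real.rpow_mul M0.le, mul_comm θ]
            push_cast; field_simp
          have e2 : 1 / (a + 1 : ℝ) * y a ≤ 1 / (k + 1 : ℝ) * y a := by
            have : (k : ℝ) ≤ a := by exact_mod_cast ha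
            have := y0 a
            gcongr
          rw [mul_pow, e1, ← mul_assoc]
          refine (mul_le_mul_of_nonneg_right (y2 a _ M0) (sq_nonneg _)).trans
            (le_trans (le_of_eq ?_) (add_le_add_right e2 _))
          field_simp
        by_cases e0 : k < m
        · rw [if_pos e0]
          refine (sum_le_sum fun a ha => e a (mem_filter.1 ha).2).trans ?_
          rw [sum_add_distrib, ← mul_sum]
          refine add_le_add_right (mul_le_of_le_one_right (by positivity) (le_trans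
            (sum_le_sum_of_subset_of_nonneg (filter_subset _ _) fun a _ _ => y0 a) y1)) _
        · rw [filter_eq_empty_iff.2 fun a _ => by have := a.2; omega, if_neg e0]; simp
    refine ⟨ε, e1, ?_⟩
    have e3 : ∑ k ∈ range m, ∑ a : Fin m with k ≤ a.1, (1 / (a + 1 : ℝ)) ^ 2 = har m := by
      simp only [sum_filter]
      rw [sum_comm, ← har_fin]
      refine sum_congr rfl fun a _ => ?_
      have : (range m).filter (fun k => k ≤ a.1) = range (a + 1) := by
        ext k; have := a.2; simp only [mem_filter, mem_range]; omega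
      rw [← sum_filter, this, sum_const, card_range, nsmul_eq_mul]
      push_cast
      field_simp
    have e4 : ∑ k ∈ range m, (if k < m then 1 / (k + 1 : ℝ) else 0) = har m :=
      sum_congr rfl fun k hk => if_pos (mem_range.1 hk)
    rw [sum_add_distrib, e3, e4] at e2
    rw [diag_hn]
    refine Real.sqrt_le_sqrt ?_
    simp only [Finset.sum_apply, Pi.smul_apply, smul_eq_mul, sum_mul, mul_assoc]
    linarith

theorem ex_lower {A : Matrix (Fin m) (Fin m) ℝ} (hA : A.PosDef) (d t : Fin m → ℝ)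
    (d0 : ∀ j, 0 < d j) (T0 : 0 < ∑ j, t j * d j)
    (h : ∀ σ : Fin m → ℝ, (∀ j, σ j = 1 ∨ σ j = -1) → hn A (fun j => σ j * t j) ≤ 1) :
    ENNReal.ofReal (∑ j, t j * d j) ≤ bal (hn A) (hn (Matrix.diagonal fun j => d j ^ 2)) := by
  obtain ⟨ψ, hψ⟩ := root hA
  let D : EuclideanSpace ℝ (Fin m) → Fin m → ℝ := fun y j => y j / d j
  let u : Fin m → EuclideanSpace ℝ (Fin m) := fun i =>
    WithLp.toLp 2 fun j => ψ (Pi.single j 1) i / d j
  have hu : ∀ y, ∑ i, (1 : ℝ) * ⟪u i, y⟫ ^ 2 = ‖ψ (D y)‖ ^ 2 := fun y => by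
    rw [EuclideanSpace.real_norm_sq_eq]
    refine sum_congr rfl fun i _ => ?_
    rw [one_mul]
    refine congrArg (· ^ 2) ?_
    conv_rhs => rw [Unc.expand (D y)]
    simp only [map_sum, map_smul, u, D, PiLp.inner_apply, RCLike.inner_apply, conj_trivial,
      WithLp.ofLp_sum, Finset.sum_apply, WithLp.ofLp_smul, Pi.smul_apply, smul_eq_mul]
    exact sum_congr rfl fun j _ => by ring
  obtain ⟨g, s, -, hs⟩ := diag (m := m) (by simp) (fun _ => (1 : ℝ)) u
  have gs : ∀ a, ‖ψ (D (g a))‖ ^ 2 = s a := fun a => by rw [← hu, hs, coef]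
  have sp : ∀ a, 0 < s a := fun a => by
    rw [← gs]
    refine pow_pos (norm_pos_iff.2 fun z => g.orthonormal.ne_zero a ?_) 2
    ext j
    have := congrFun (ψ.map_eq_zero_iff.1 z) j
    exact (div_eq_zero_iff.1 this).resolve_right (d0 j).ne'
  have col : ∀ j, ∑ a, g a j ^ 2 = 1 := fun j => by
    simpa [EuclideanSpace.inner_single_right] using parseval g (EuclideanSpace.single j (1 : ℝ))
  have tr : ∑ j : Fin m, ∑ a, s a * (g a j * (t j * d j)) ^ 2 ≤ 1 := by
    obtain ⟨σ, s1, s2⟩ := signs fun j : Fin m => t j • ψ (Pi.single j 1)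
    have e : ∑ l, σ l • t l • ψ (Pi.single l 1) = ψ fun j => σ j * t j := by
      conv_rhs => rw [Unc.expand fun j => σ j * t j]
      simp only [map_sum, map_smul, smul_smul]
    rw [e, hψ] at s2
    refine le_trans (le_of_eq (sum_congr rfl fun j _ => ?_))
      (s2.trans (pow_le_one₀ (Real.sqrt_nonneg _) (h σ s1)))
    have e2 : D (EuclideanSpace.single j (t j * d j)) = t j • Pi.single j 1 := by
      ext i
      by_cases k : i = j
      · subst k; have := (d0 i).ne'; simp only [D]; simp; field_simp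
      · simp [D, k]
    rw [← map_smul, ← e2, ← hu, hs]
    refine sum_congr rfl fun a _ => ?_
    simp only [EuclideanSpace.inner_single_right, conj_trivial]
    ring
  set H := ∑ j, t j * d j with hH
  have big : H ^ 2 ≤ ∑ a, 1 / s a := by
    have k : ∑ j : Fin m, ∑ a, g a j ^ 2 * (t j * d j) ≤
        ∑ j : Fin m, ∑ a, (H / 2 * (s a * (g a j * (t j * d j)) ^ 2) +
          1 / (2 * H) * (1 / s a * g a j ^ 2)) :=
      sum_le_sum fun j _ => sum_le_sum fun a _ => by
        have := sp a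
        have e : H / 2 * (s a * (g a j * (t j * d j)) ^ 2) +
            1 / (2 * H) * (1 / s a * g a j ^ 2) - g a j ^ 2 * (t j * d j) =
            g a j ^ 2 * (H * s a * (t j * d j) - 1) ^ 2 / (2 * H * s a) := by
          field_simp; ring
        have : 0 ≤ g a j ^ 2 * (H * s a * (t j * d j) - 1) ^ 2 / (2 * H * s a) := by
          positivity
        linarith
    have k2 : ∑ j : Fin m, ∑ a, 1 / s a * g a j ^ 2 = ∑ a, 1 / s a := by
      rw [sum_comm]
      refine sum_congr rfl fun a _ => ?_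
      rw [← mul_sum, ← EuclideanSpace.real_norm_sq_eq, g.orthonormal.1 a]; ring
    simp only [← sum_mul, col, sum_add_distrib, one_mul] at k
    simp only [← mul_sum (a := H / 2), ← mul_sum (a := 1 / (2 * H))] at k
    rw [← hH, k2] at k
    have k3 : H / 2 ≤ 1 / (2 * H) * ∑ a, 1 / s a := by nlinarith
    rw [one_div_mul_eq_div, le_div_iff₀ (by positivity)] at k3
    linarith
  refine le_bal (fun a => (√(s a))⁻¹ • D (g a)) (fun a => ?_) fun ε hε => ?_
  · rw [← hψ, map_smul, norm_smul, norm_inv, Real.norm_of_nonneg (Real.sqrt_nonneg _), ← gs,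
      Real.sqrt_sq (norm_nonneg _)]
    exact inv_mul_le_one
  · rw [diag_hn]
    refine Real.le_sqrt_of_sq_le (big.trans (le_of_eq ?_))
    have e : ∑ a, 1 / s a = ‖∑ a, (ε a * (√(s a))⁻¹) • g a‖ ^ 2 := by
      rw [← parseval g]
      refine sum_congr rfl fun a _ => ?_
      have e1 : ε a ^ 2 = 1 := by rcases hε a with k | k <;> simp [k]
      rw [g.orthonormal.inner_right_fintype, mul_pow, e1, inv_pow, Real.sq_sqrt (sp a).le]
      ring
    rw [e, EuclideanSpace.real_norm_sq_eq]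
    refine sum_congr rfl fun j _ => congrArg (· ^ 2) ?_
    simp only [WithLp.ofLp_sum, Finset.sum_apply, WithLp.ofLp_smul, Pi.smul_apply, smul_eq_mul, D,
      sum_mul]
    exact sum_congr rfl fun a _ => by have := (d0 j).ne'; field_simp

theorem sign_sum {E : Type} [NormedAddCommGroup E] [InnerProductSpace ℝ E] (n : ℕ)
    (y : Fin n → E) : ∑ σ : Fin n → Bool, ‖∑ j, (if σ j then (1 : ℝ) else -1) • y j‖ ^ 2 =
      2 ^ n * ∑ j, ‖y j‖ ^ 2 := by
  induction n with
  | zero => simp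
  | succ n ih =>
    rw [← (Fin.consEquiv fun _ : Fin (n + 1) => Bool).sum_comp, Fintype.sum_prod_type,
      Fintype.sum_bool, ← sum_add_distrib, Fin.sum_univ_succ fun j => ‖y j‖ ^ 2]
    have e : ∀ σ : Fin n → Bool,
        ‖∑ j, (if Fin.consEquiv (fun _ : Fin (n + 1) => Bool) (true, σ) j then (1 : ℝ) else -1) •
          y j‖ ^ 2 +
        ‖∑ j, (if Fin.consEquiv (fun _ : Fin (n + 1) => Bool) (false, σ) j then (1 : ℝ) else -1) •
          y j‖ ^ 2 =
        2 * ‖y 0‖ ^ 2 + 2 * ‖∑ j, (if σ j then (1 : ℝ) else -1) • y j.succ‖ ^ 2 := fun σ => by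
      simp only [Fin.sum_univ_succ, Fin.consEquiv_apply, Fin.cons_zero, Fin.cons_succ, if_true,
        Bool.false_eq_true, if_false, one_smul, neg_smul, norm_add_sq_real, norm_neg,
        inner_neg_left]
      ring
    simp only [e, sum_add_distrib, ← mul_sum, ih, sum_const, card_univ, Fintype.card_fun,
      Fintype.card_bool, Fintype.card_fin, nsmul_eq_mul]
    push_cast
    ring

/-- A Hilbert norm is a norm of type 2 with constant one. -/
theorem hilbert {Q : Matrix (Fin m) (Fin m) ℝ} (hQ : Q.PosDef) :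
    ∃ Y : Seminorm ℝ (Fin m → ℝ), ⇑Y = hn Q ∧ (∀ v, Y v = 0 → v = 0) ∧ TypeTwo 1 Y := by
  obtain ⟨φ, hφ⟩ := root hQ
  refine ⟨(normSeminorm ℝ _).comp φ.toLinearMap, funext hφ,
    fun v h => φ.map_eq_zero_iff.1 (norm_eq_zero.1 h), fun n y => le_of_eq ?_⟩
  simp only [Seminorm.comp_apply, coe_normSeminorm, LinearEquiv.coe_coe, map_sum φ, map_smul,
    sign_sum, one_pow, one_mul]

theorem sharp (hm : 2 ≤ m) {θ : ℝ} (θ0 : 0 ≤ θ) (θ1 : θ ≤ 1 / 2) :
    ∃ X Y : Seminorm ℝ (Fin m → ℝ), ConvexQuot θ X ∧ (∀ v, Y v = 0 → v = 0) ∧ TypeTwo 1 Y ∧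
      ∀ A : Matrix (Fin m) (Fin m) ℝ, A.PosDef → (∀ v, hn A v ≤ X v) →
        ENNReal.ofReal (Real.log m ^ (1 / 2 - θ) / 3) * bal X Y < bal (hn A) Y := by
  obtain ⟨W, w1, w2, w3, w4, w5⟩ := exW m θ0 θ1
  have l0 : 0 < Real.log m := Real.log_pos (by exact_mod_cast hm)
  have H0 : 0 < har m := l0.trans (lt_har hm)
  obtain ⟨Y, y1, y2, y3⟩ := hilbert (Matrix.PosDef.diagonal
    (d := fun j : Fin m => ((j + 1 : ℝ) ^ (θ - 1)) ^ 2) fun j => by positivity)
  refine ⟨W, Y, ⟨m, W, 1, w1, w2, w3, fun v => by simp⟩, y2, y3, fun A hA h => ?_⟩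
  rw [y1]
  have e : ∑ j : Fin m, (1 / (j + 1 : ℝ) / har m) ^ θ * (j + 1 : ℝ) ^ (θ - 1) =
      har m ^ (1 - θ) := by
    rw [Real.rpow_sub H0, Real.rpow_one, eq_div_iff (by positivity), sum_mul, ← har_fin]
    refine sum_congr rfl fun j _ => ?_
    have M0 : (0 : ℝ) < j + 1 := by positivity
    rw [har_fin, Real.div_rpow (by positivity) H0.le, Real.div_rpow zero_le_one M0.le,
      Real.one_rpow, Real.rpow_sub_one M0.ne']
    field_simp
  have lo := ex_lower hA (fun j : Fin m => (j + 1 : ℝ) ^ (θ - 1))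
    (fun j : Fin m => (1 / (j + 1 : ℝ) / har m) ^ θ) (fun j => by positivity)
    (by rw [e]; positivity) fun σ hσ => (h _).trans ((w1.2 σ _ hσ).trans_le
      (w5 _ (fun a => by positivity) (by rw [← sum_div, har_fin, div_self H0.ne'])))
  rw [e] at lo
  refine lt_of_lt_of_le ((mul_le_mul_right (ex_upper w4) _).trans_lt ?_) lo
  rw [← ENNReal.ofReal_mul (by positivity), ENNReal.ofReal_lt_ofReal_iff (by positivity)]
  have a1 : Real.log m ^ (1 / 2 - θ) ≤ har m ^ (1 / 2 - θ) :=
    Real.rpow_le_rpow l0.le (lt_har hm).le (by linarith)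
  have a2 : √(8 * har m) < 3 * har m ^ (1 / 2 : ℝ) := by
    rw [← Real.sqrt_eq_rpow, Real.sqrt_lt' (by positivity), mul_pow, Real.sq_sqrt H0.le]
    linarith
  have a3 : har m ^ (1 - θ) = har m ^ (1 / 2 - θ) * har m ^ (1 / 2 : ℝ) := by
    rw [← Real.rpow_add H0]; exact congrArg _ (by ring)
  have a4 : 0 < Real.log m ^ (1 / 2 - θ) := by positivity
  have a5 : 0 < har m ^ (1 / 2 : ℝ) := by positivity
  rw [a3]
  nlinarith [mul_lt_mul_of_pos_left a2 a4, mul_le_mul_of_nonneg_right a1 a5.le]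

end Pool.Agent.MP_122bd4_an.Zon
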