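import Pool.Agent.MP_122bd4_an.Zon.Core
import Pool.Agent.MP_122bd4_an.Zon.Sep
import Pool.Agent.MP_122bd4_an.Zon.Ban

/-! The dominated Hilbert norm for a target of type 2. -/

open Finset
open scoped Matrix

namespace Pool.Agent.MP_122bd4_an.Zon

variable {m : ℕ} {X Y : Seminorm ℝ (Fin m → ℝ)} {τ : ℝ}

theorem ell (τ0 : 0 < τ) (hT : TypeTwo τ Y) {c : ℝ} (c0 : 0 < c) {J : ℕ} (y : Fin J → Fin m → ℝ)
    {η : ℝ} (η0 : 0 < η) (hy : ∑ j, Y (y j) ^ 2 ≤ c ^ 2)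
    (h : ∀ v, X v ≤ 1 → ∀ z, (v ⬝ᵥ z) ^ 2 + η * (z ⬝ᵥ z) ≤ ∑ j, (y j ⬝ᵥ z) ^ 2) :
    ∃ A : Matrix (Fin m) (Fin m) ℝ, A.PosDef ∧ (∀ v, hn A v ≤ X v) ∧
      bal (hn A) Y ≤ ENNReal.ofReal (840 * τ * c) := by
  let S : Matrix (Fin m) (Fin m) ℝ := Matrix.of fun i k => ∑ j, y j i * y j k
  have S1 : ∀ z, S *ᵥ z = ∑ j, (y j ⬝ᵥ z) • y j := fun z => by
    ext i
    simp only [S, Matrix.mulVec, dotProduct, Matrix.of_apply, Finset.sum_apply, Pi.smul_apply,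
      smul_eq_mul, sum_mul]
    rw [sum_comm]
    exact sum_congr rfl fun j _ => sum_congr rfl fun k _ => by ring
  have S2 : ∀ z, (S *ᵥ z) ⬝ᵥ z = ∑ j, (y j ⬝ᵥ z) ^ 2 := fun z => by
    rw [S1, sum_dotProduct]
    exact sum_congr rfl fun j _ => by rw [smul_dotProduct, smul_eq_mul, sq]
  have pS : S.PosDef := Matrix.PosDef.of_dotProduct_mulVec_pos (by
    ext i k
    simp only [S, Matrix.conjTranspose_apply, star_trivial, Matrix.of_apply, mul_comm]) fun x hx => by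
    rw [star_trivial, dotProduct_comm, S2]
    have : 0 < x ⬝ᵥ x := (dot_nonneg x).lt_of_ne' fun k => hx (dotProduct_self_eq_zero.1 k)
    exact lt_of_lt_of_le (by positivity) (h 0 (by simp) x)
  have S3 : ∀ v, S *ᵥ (S⁻¹ *ᵥ v) = v := fun v => by
    rw [Matrix.mulVec_mulVec, Matrix.mul_nonsing_inv _ ((Matrix.isUnit_iff_isUnit_det _).1
      pS.isUnit), Matrix.one_mulVec]
  have S4 : ∀ v, v ⬝ᵥ S⁻¹ *ᵥ v = ∑ j, (y j ⬝ᵥ S⁻¹ *ᵥ v) ^ 2 := fun v => by rw [← S2, S3]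
  refine ⟨S⁻¹, pS.inv, fun v => le_of_forall_gt_imp_ge_of_dense fun r hr => ?_,
    bal_le fun n v hv => ?_⟩
  · have r0 : 0 < r := (apply_nonneg X v).trans_lt hr
    have k := h (r⁻¹ • v) (by
      rw [map_smul_eq_mul, Real.norm_of_nonneg (inv_nonneg.2 r0.le), inv_mul_le_one₀ r0]
      exact hr.le) (S⁻¹ *ᵥ v)
    rw [← S4, smul_dotProduct, smul_eq_mul] at k
    refine Real.sqrt_le_iff.2 ⟨r0.le, ?_⟩
    set P := v ⬝ᵥ S⁻¹ *ᵥ v
    have k2 : (r⁻¹ * P) ^ 2 ≤ P := by linarith [mul_nonneg η0.le (dot_nonneg (S⁻¹ *ᵥ v))]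
    rw [mul_pow, inv_pow, inv_mul_le_iff₀ (by positivity)] at k2
    by_contra n
    have := sq_pos_of_pos r0
    nlinarith
  · obtain ⟨ε, e1, e2⟩ := ban (Y.comp (Fintype.linearCombination ℝ y)) (ρ := 60 * τ * c)
      (by positivity) (fun x hx => by
        refine le_trans (le_of_eq (sum_congr rfl fun σ _ => ?_))
          ((hT J fun j => x j • y j).trans (mul_le_mul_of_nonneg_left ?_ (by positivity)))
        · simp only [Seminorm.comp_apply, Fintype.linearCombination_apply, smul_smul]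
        · have : ∑ j, Y (x j • y j) ^ 2 ≤ 60 ^ 2 * ∑ j, Y (y j) ^ 2 := by
            rw [mul_sum]
            refine sum_le_sum fun j _ => ?_
            have := (norm_le_pi_norm x j).trans hx
            rw [map_smul_eq_mul, mul_pow]
            gcongr
          calc _ ≤ τ ^ 2 * (60 ^ 2 * c ^ 2) := by gcongr; exact this.trans (by gcongr)
            _ = _ := by ring)
      (fun l j => y j ⬝ᵥ S⁻¹ *ᵥ v l) fun l => by
        rw [← S4]; exact Real.sqrt_le_one.1 (hv l)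
    refine ⟨ε, e1, le_trans (le_of_eq ?_) (e2.trans_eq (by ring))⟩
    rw [Seminorm.comp_apply, map_sum (Fintype.linearCombination ℝ y)]
    refine congrArg Y (sum_congr rfl fun l _ => ?_)
    rw [map_smul, Fintype.linearCombination_apply, ← S1, S3]

theorem bal_mono {X Y Z : (Fin m → ℝ) → ℝ} (h : ∀ v, Y v ≤ Z v) : bal X Y ≤ bal X Z :=
  iSup_mono fun _ => iSup_mono fun _ => iSup_mono fun _ => iInf_mono fun _ => iInf_mono fun _ =>
    ENNReal.ofReal_le_ofReal (h _)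

theorem upper (hm : 2 ≤ m) {θ : ℝ} (θ0 : 0 ≤ θ) (θ1 : θ ≤ 1 / 2) (τ0 : 0 < τ)
    (hX : ConvexQuot θ X) (hY : ∀ v, Y v = 0 → v = 0) (hT : TypeTwo τ Y) :
    ∃ A : Matrix (Fin m) (Fin m) ℝ, A.PosDef ∧ (∀ v, hn A v ≤ X v) ∧
      bal (hn A) Y ≤ ENNReal.ofReal (50400 * τ * Real.log m ^ (1 / 2 - θ)) * bal X Y := by
  have l0 : 0 < Real.log m := Real.log_pos (by exact_mod_cast hm)
  set L := Real.log m ^ (1 / 2 - θ) with hL
  have L0 : 0 < L := by positivity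
  obtain ⟨δ, δ0, hδ⟩ := below (by omega) hY
  have q0 : ∀ y, hn (δ • (1 : Matrix (Fin m) (Fin m) ℝ)) y ≤ Y y := fun y =>
    Real.sqrt_le_iff.2 ⟨apply_nonneg Y y, by
      rw [Matrix.smul_mulVec, Matrix.one_mulVec, dotProduct_smul]; exact hδ y⟩
  obtain ⟨T0, e0, t1, t2, -, t4⟩ := core hm θ0 θ1 hX (Matrix.PosDef.one.smul δ0)
  by_cases top : bal X Y = ⊤
  · have s0 : 0 ≤ ∑ a, Y (e0 a) ^ 2 := by positivity
    obtain ⟨J, y, η, η0, y1, y2⟩ := sep (by omega) hY (X := X) (c := 2 * ∑ a, Y (e0 a) ^ 2 + 2)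
      (by positivity) fun Q _ hQ => ⟨e0, t2, lt_of_le_of_lt (sum_le_sum fun a _ =>
        pow_le_pow_left₀ (Real.sqrt_nonneg _) (hQ _) 2) (by nlinarith)⟩
    obtain ⟨A, a1, a2, -⟩ := ell τ0 hT (by positivity) y η0 y1 y2
    refine ⟨A, a1, a2, ?_⟩
    rw [top, ENNReal.mul_top (by simp; positivity)]
    exact le_top
  set b := (bal X Y).toReal with hb
  have eb : bal X Y = ENNReal.ofReal b := (ENNReal.ofReal_toReal top).symm
  have b0 : 0 ≤ b := ENNReal.toReal_nonneg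
  have tb : ∀ (T : ℝ) (Q : Matrix (Fin m) (Fin m) ℝ), (∀ y, hn Q y ≤ Y y) →
      ENNReal.ofReal T ≤ ENNReal.ofReal (40 * L) * bal X (hn Q) → T ≤ 40 * L * b :=
    fun T Q hQ h => by
      have := h.trans (mul_le_mul_right (bal_mono hQ) _)
      rwa [eb, ← ENNReal.ofReal_mul (by positivity),
        ENNReal.ofReal_le_ofReal_iff (by positivity)] at this
  have bp : 0 < L * b := by linarith [tb _ _ q0 t4]
  obtain ⟨J, y, η, η0, y1, y2⟩ := sep (by omega) hY (X := X) (c := 60 * (L * b))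
    (by positivity) fun Q pQ hQ => by
      obtain ⟨T, e, s1, s2, s3, s4⟩ := core hm θ0 θ1 hX pQ
      refine ⟨e, s2, s3.trans_lt ?_⟩
      have := pow_le_pow_left₀ s1.le (tb _ _ hQ s4) 2
      nlinarith [sq_pos_of_pos bp]
  obtain ⟨A, a1, a2, a3⟩ := ell τ0 hT (by positivity) y η0 y1 y2
  refine ⟨A, a1, a2, a3.trans (le_of_eq ?_)⟩
  rw [eb, ← ENNReal.ofReal_mul (by positivity)]
  exact congrArg _ (by ring)

end Pool.Agent.MP_122bd4_an.Zon
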